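import Pool.Agent.DNeo.Defs

/-!
# From a presentation function to a neofield
-/

set_option autoImplicit false

namespace Pool.Agent.DNeo

open Multiplicative

/-- the carrier -/
abbrev JN (N : ℕ) : Type := WithZero (Multiplicative (ZMod N))

/-- the element `x ^ i` -/
def el {N : ℕ} (i : ZMod N) : JN N := ((ofAdd i : Multiplicative (ZMod N)) : JN N)

theorem el_inj {N : ℕ} {i j : ZMod N} (h : el i = el j) : i = j := by
  unfold el at h
  rw [WithZero.coe_inj] at h
  exact ofAdd.injective h

theorem el_ne_zero {N : ℕ} (i : ZMod N) : el i ≠ 0 := WithZero.coe_ne_zero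

theorem el_mul {N : ℕ} (i j : ZMod N) : el i * el j = el (i + j) := by
  unfold el
  rw [← WithZero.coe_mul, ← ofAdd_add]

theorem el_cases {N : ℕ} (y : JN N) : y = 0 ∨ ∃ i, y = el i := by
  rcases eq_or_ne y 0 with h | h
  · exact Or.inl h
  · obtain ⟨g, hg⟩ := WithZero.ne_zero_iff_exists.1 h
    exact Or.inr ⟨toAdd g, hg.symm⟩

theorem el_zero {N : ℕ} : el (0 : ZMod N) = 1 := rfl

open Classical in
/-- the addition given by the presentation function `ψ`: `1 + x^t = x^(ψ t)` for `t ≠ s` -/
noncomputable def ad {N : ℕ} (s : ZMod N) (ψ : ZMod N → ZMod N) (a b : JN N) : JN N :=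
  if ha : a = 0 then b else if hb : b = 0 then a else
    let i := toAdd (WithZero.unzero ha)
    let j := toAdd (WithZero.unzero hb)
    if j - i = s then 0 else el (i + ψ (j - i))

section
variable {N : ℕ} (s : ZMod N) (ψ : ZMod N → ZMod N)

theorem ad_zero_left (b : JN N) : ad s ψ 0 b = b := by
  unfold ad; simp

theorem ad_zero_right (a : JN N) : ad s ψ a 0 = a := by
  unfold ad
  by_cases ha : a = 0
  · simp [ha]
  · simp [ha]

theorem unzero_el (i : ZMod N) (h : el i ≠ 0) : toAdd (WithZero.unzero h) = i := by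
  have h1 : WithZero.unzero h = ofAdd i := WithZero.unzero_coe h
  rw [h1]
  rfl

theorem ad_el (i j : ZMod N) :
    ad s ψ (el i) (el j) = if j - i = s then 0 else el (i + ψ (j - i)) := by
  unfold ad
  rw [dif_neg (el_ne_zero i), dif_neg (el_ne_zero j)]
  simp only [unzero_el]

theorem mul_ad (a b c : JN N) : a * ad s ψ b c = ad s ψ (a * b) (a * c) := by
  rcases el_cases a with rfl | ⟨i, rfl⟩
  · rw [zero_mul, zero_mul, zero_mul, ad_zero_left]
  rcases el_cases b with rfl | ⟨j, rfl⟩
  · rw [mul_zero, ad_zero_left, ad_zero_left]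
  rcases el_cases c with rfl | ⟨k, rfl⟩
  · rw [mul_zero, ad_zero_right, ad_zero_right]
  rw [el_mul, el_mul, ad_el, ad_el]
  have e : i + k - (i + j) = k - j := by ring
  rw [e]
  split_ifs
  · rw [mul_zero]
  · rw [el_mul, add_assoc]

end

/-- the conditions on a presentation function -/
structure Pres (N : ℕ) (s : ZMod N) (ψ : ZMod N → ZMod N) : Prop where
  inj1 : ∀ t u, t ≠ s → u ≠ s → ψ t = ψ u → t = u
  ne1 : ∀ t, t ≠ s → ψ t ≠ 0
  inj2 : ∀ t u, t ≠ s → u ≠ s → ψ t - t = ψ u - u → t = u
  ne2 : ∀ t, t ≠ s → ψ t - t ≠ 0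
  inj3 : ∀ t u, t ≠ s → t - 1 ≠ s → u ≠ s → u - 1 ≠ s → ψ t - ψ (t - 1) = ψ u - ψ (u - 1) → t = u

/-- an injective function off one point which misses `0` is surjective onto the nonzero elements -/
theorem surj_aux {N : ℕ} [NeZero N] (s : ZMod N) (f : ZMod N → ZMod N)
    (h1 : ∀ t u, t ≠ s → u ≠ s → f t = f u → t = u) (h2 : ∀ t, t ≠ s → f t ≠ 0)
    (w : ZMod N) (hw : w ≠ 0) : ∃ t, t ≠ s ∧ f t = w := by
  classical
  let g : ZMod N → ZMod N := fun t => if t = s then 0 else f t
  have hg : Function.Injective g := by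
    intro t u h
    simp only [g] at h
    by_cases ht : t = s
    · by_cases hu : u = s
      · rw [ht, hu]
      · rw [if_pos ht, if_neg hu] at h
        exact absurd h.symm (h2 u hu)
    · by_cases hu : u = s
      · rw [if_neg ht, if_pos hu] at h
        exact absurd h (h2 t ht)
      · rw [if_neg ht, if_neg hu] at h
        exact h1 t u ht hu h
  obtain ⟨t, ht⟩ := Finite.surjective_of_injective hg w
  simp only [g] at ht
  by_cases h : t = s
  · rw [if_pos h] at ht
    exact absurd ht.symm hw
  · rw [if_neg h] at ht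
    exact ⟨t, h, ht⟩

theorem isNeofield {N : ℕ} [NeZero N] (s : ZMod N) (ψ : ZMod N → ZMod N) (h : Pres N s ψ) :
    IsNeofield (JN N) (ad s ψ) := by
  refine ⟨⟨ad_zero_left s ψ, ad_zero_right s ψ, ?_, ?_⟩, mul_ad s ψ, ?_⟩
  · intro a b
    rcases el_cases a with rfl | ⟨i, rfl⟩
    · refine ⟨b, ad_zero_left s ψ b, fun c hc => ?_⟩
      simp only [ad_zero_left] at hc
      exact hc
    rcases el_cases b with rfl | ⟨k, rfl⟩
    · refine ⟨el (i + s), ?_, fun c hc => ?_⟩
      · simp only [ad_el, add_sub_cancel_left, if_true]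
      · simp only at hc
        rcases el_cases c with rfl | ⟨j, rfl⟩
        · rw [ad_zero_right] at hc
          exact absurd hc (el_ne_zero i)
        · rw [ad_el] at hc
          by_cases hj : j - i = s
          · rw [← hj]; congr 1; ring
          · rw [if_neg hj] at hc
            exact absurd hc (el_ne_zero _)
    · by_cases hki : k = i
      · subst hki
        refine ⟨0, ad_zero_right s ψ _, fun c hc => ?_⟩
        simp only at hc
        rcases el_cases c with rfl | ⟨j, rfl⟩
        · rfl
        · rw [ad_el] at hc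
          by_cases hj : j - k = s
          · rw [if_pos hj] at hc
            exact absurd hc.symm (el_ne_zero k)
          · rw [if_neg hj] at hc
            have h1 := el_inj hc
            exact absurd (by linear_combination h1) (h.ne1 _ hj)
      · obtain ⟨t, ht, htk⟩ := surj_aux s ψ h.inj1 h.ne1 (k - i) (sub_ne_zero.2 hki)
        refine ⟨el (i + t), ?_, fun c hc => ?_⟩
        · simp only [ad_el, add_sub_cancel_left, if_neg ht, htk]
          congr 1; ring
        · simp only at hc
          rcases el_cases c with rfl | ⟨j, rfl⟩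
          · rw [ad_zero_right] at hc
            exact absurd (el_inj hc).symm hki
          · rw [ad_el] at hc
            by_cases hj : j - i = s
            · rw [if_pos hj] at hc
              exact absurd hc.symm (el_ne_zero k)
            · rw [if_neg hj] at hc
              have h1 := el_inj hc
              have h2 : j - i = t := h.inj1 _ _ hj ht (by rw [htk]; linear_combination h1)
              rw [← h2]; congr 1; ring
  · intro a b
    rcases el_cases a with rfl | ⟨i, rfl⟩
    · refine ⟨b, ad_zero_right s ψ b, fun c hc => ?_⟩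
      simp only [ad_zero_right] at hc
      exact hc
    rcases el_cases b with rfl | ⟨k, rfl⟩
    · refine ⟨el (i - s), ?_, fun c hc => ?_⟩
      · simp only [ad_el, sub_sub_cancel, if_true]
      · simp only at hc
        rcases el_cases c with rfl | ⟨j, rfl⟩
        · rw [ad_zero_left] at hc
          exact absurd hc (el_ne_zero i)
        · rw [ad_el] at hc
          by_cases hj : i - j = s
          · rw [← hj]; congr 1; ring
          · rw [if_neg hj] at hc
            exact absurd hc (el_ne_zero _)
    · by_cases hki : k = i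
      · subst hki
        refine ⟨0, ad_zero_left s ψ _, fun c hc => ?_⟩
        simp only at hc
        rcases el_cases c with rfl | ⟨j, rfl⟩
        · rfl
        · rw [ad_el] at hc
          by_cases hj : k - j = s
          · rw [if_pos hj] at hc
            exact absurd hc.symm (el_ne_zero k)
          · rw [if_neg hj] at hc
            have h1 := el_inj hc
            exact absurd (by linear_combination h1) (h.ne2 _ hj)
      · obtain ⟨t, ht, htk⟩ := surj_aux s (fun t => ψ t - t) h.inj2 h.ne2 (k - i)
          (sub_ne_zero.2 hki)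
        refine ⟨el (i - t), ?_, fun c hc => ?_⟩
        · simp only [ad_el, sub_sub_cancel, if_neg ht]
          congr 1; linear_combination htk
        · simp only at hc
          rcases el_cases c with rfl | ⟨j, rfl⟩
          · rw [ad_zero_left] at hc
            exact absurd (el_inj hc).symm hki
          · rw [ad_el] at hc
            by_cases hj : i - j = s
            · rw [if_pos hj] at hc
              exact absurd hc.symm (el_ne_zero k)
            · rw [if_neg hj] at hc
              have h1 := el_inj hc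
              have h2 : i - j = t := h.inj2 _ _ hj ht (by linear_combination h1 - htk)
              rw [← h2]; congr 1; ring
  · intro a b c
    rw [mul_comm, mul_ad, mul_comm a b, mul_comm a c]

/-- the generator -/
def gx (N : ℕ) : (JN N)ˣ := Units.mk0 (el 1) (el_ne_zero 1)

theorem gx_zpow {N : ℕ} (t : ℤ) : ((gx N : (JN N)ˣ) : JN N) ^ t = el (t : ZMod N) := by
  have h1 : ((gx N : (JN N)ˣ) : JN N) = ((ofAdd (1 : ZMod N) : Multiplicative (ZMod N)) : JN N) :=
    rfl
  rw [h1, ← WithZero.coe_zpow, ← ofAdd_zsmul]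
  unfold el
  simp

theorem isDNeofield {N : ℕ} [NeZero N] (s : ZMod N) (ψ : ZMod N → ZMod N) (h : Pres N s ψ) :
    IsDNeofield (JN N) (ad s ψ) (N + 1) := by
  haveI : Finite (JN N) := inferInstanceAs (Finite (Option (ZMod N)))
  refine ⟨isNeofield s ψ h, inferInstance, ?_, gx N, ?_, ?_⟩
  · have : Nat.card (Option (ZMod N)) = N + 1 := by
      rw [Finite.card_option, Nat.card_zmod]
    exact this
  · intro y
    rcases el_cases (y : JN N) with h0 | ⟨i, hi⟩
    · exact absurd h0 y.ne_zero
    · rw [Subgroup.mem_zpowers_iff]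
      refine ⟨(i.val : ℤ), ?_⟩
      apply Units.ext
      rw [Units.val_zpow_eq_zpow_val, gx_zpow, hi]
      congr 1
      simp
  · intro t u h1 h2 h3 h4 h5
    rw [Nat.add_sub_cancel]
    have hne : ∀ t : ℤ, ad s ψ 1 (((gx N : (JN N)ˣ) : JN N) ^ t) ≠ 0 → ((t : ZMod N) ≠ s ∧
        ad s ψ 1 (((gx N : (JN N)ˣ) : JN N) ^ t) = el (ψ t)) := by
      intro t ht
      rw [gx_zpow, ← el_zero, ad_el, sub_zero, zero_add] at ht ⊢
      by_cases hts : (t : ZMod N) = s
      · rw [if_pos hts] at ht
        exact absurd rfl ht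
      · rw [if_neg hts]
        exact ⟨hts, rfl⟩
    obtain ⟨a1, b1⟩ := hne t h1
    obtain ⟨a2, b2⟩ := hne _ h2
    obtain ⟨a3, b3⟩ := hne u h3
    obtain ⟨a4, b4⟩ := hne _ h4
    rw [b1, b2, b3, b4, div_eq_div_iff (el_ne_zero _) (el_ne_zero _), el_mul, el_mul] at h5
    have h6 := el_inj h5
    push_cast at h6 a2 a4
    have h7 := h.inj3 (t : ZMod N) (u : ZMod N) a1 a2 a3 a4 (by linear_combination h6)
    exact (ZMod.intCast_eq_intCast_iff t u N).1 h7

/-- commutativity of the addition -/
theorem comm_iff {N : ℕ} (s : ZMod N) (ψ : ZMod N → ZMod N)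
    (h : ∀ t, t ≠ s → -t ≠ s ∧ ψ (-t) = ψ t - t) : ∀ a b : JN N, ad s ψ a b = ad s ψ b a := by
  intro a b
  rcases el_cases a with rfl | ⟨i, rfl⟩
  · rw [ad_zero_left, ad_zero_right]
  rcases el_cases b with rfl | ⟨j, rfl⟩
  · rw [ad_zero_left, ad_zero_right]
  rw [ad_el, ad_el]
  by_cases hs : j - i = s
  · rw [if_pos hs]
    by_cases hs2 : i - j = s
    · rw [if_pos hs2]
    · exfalso
      have h1 := (h _ hs2).1
      apply h1
      rw [← hs]; ring
  · obtain ⟨h1, h2⟩ := h _ hs
    have e : -(j - i) = i - j := by ring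
    rw [e] at h1 h2
    rw [if_neg hs, if_neg h1, h2]
    congr 1; ring

theorem noncomm_of {N : ℕ} (s : ZMod N) (ψ : ZMod N → ZMod N) (t : ZMod N) (ht : t ≠ s)
    (ht2 : -t ≠ s) (h : ψ (-t) ≠ ψ t - t) : ¬ ∀ a b : JN N, ad s ψ a b = ad s ψ b a := by
  intro hc
  have h1 := hc (el 0) (el t)
  rw [ad_el, ad_el, sub_zero, zero_sub, if_neg ht, if_neg ht2, zero_add] at h1
  have h2 := el_inj h1
  exact h (by linear_combination -h2)

end Pool.Agent.DNeo
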