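import Pool.Agent.DNeo.Core
import Pool.Agent.DNeo.Build

/-!
# D-neofields from leveled bases
-/

set_option autoImplicit false

namespace Pool.Agent.DNeo

variable {q H L : ℕ} {P Y μ : ℕ → ℤ}

/-- the value at `j` -/
def vv (H L : ℕ) (P Y μ : ℕ → ℤ) (j : ℕ) : ℤ := val H L P Y μ (j % (2 * H)) (j / (2 * H))

theorem quot_lt {j : ℕ} (hj : j < 2 * H * L) : j / (2 * H) < L :=
  Nat.div_lt_of_lt_mul hj

theorem rem_lt (hH : 0 < H) (j : ℕ) : j % (2 * H) < 2 * H := Nat.mod_lt _ (by omega)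

theorem eq_of_qr {j j' : ℕ} (h1 : j % (2 * H) = j' % (2 * H)) (h2 : j / (2 * H) = j' / (2 * H)) :
    j = j' := by
  rw [← Nat.div_add_mod j (2 * H), ← Nat.div_add_mod j' (2 * H), h1, h2]

theorem cast_qr (j : ℕ) : ((j % (2 * H) : ℕ) : ℤ) + 2 * H * ((j / (2 * H) : ℕ) : ℤ) = j := by
  have := Nat.div_add_mod j (2 * H)
  have h2 : ((2 * H * (j / (2 * H)) + j % (2 * H) : ℕ) : ℤ) = (j : ℤ) := by exact_mod_cast this
  push_cast at h2 ⊢
  linarith

theorem vv_inj (hl : Lev q H P Y μ) (hq : Nat.Coprime L q) {j j' : ℕ} (hj : j < 2 * H * L)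
    (hj' : j' < 2 * H * L) (h : (2 * H * L : ℤ) ∣ vv H L P Y μ j - vv H L P Y μ j') : j = j' := by
  obtain ⟨h1, h2⟩ := A_inj hl hq (rem_lt hl.H_pos j) (rem_lt hl.H_pos j') (quot_lt hj)
    (quot_lt hj') h
  exact eq_of_qr h1 h2

theorem vv_zero (hl : Lev q H P Y μ) : vv H L P Y μ 0 = 0 := by
  unfold vv val
  rw [Nat.zero_mod, Nat.zero_div, hl.P_zero, hl.Y_zero]
  push_cast
  ring

theorem pos_qr (hH : 0 < H) {j : ℕ} (hj : 0 < j) : 0 < j % (2 * H) ∨ 0 < j / (2 * H) := by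
  by_contra hc
  push Not at hc
  have h1 : j % (2 * H) = 0 := Nat.le_zero.1 hc.1
  have h2 : j / (2 * H) = 0 := Nat.le_zero.1 hc.2
  have := Nat.div_add_mod j (2 * H)
  rw [h1, h2] at this
  omega

theorem vvB_inj (hl : Lev q H P Y μ) (hq : Nat.Coprime L q) {j j' : ℕ} (hj0 : 0 < j)
    (hj0' : 0 < j') (hj : j < 2 * H * L) (hj' : j' < 2 * H * L)
    (h : (2 * H * L : ℤ) ∣ (vv H L P Y μ j - j) - (vv H L P Y μ j' - j')) : j = j' := by
  rw [← cast_qr (H := H) j, ← cast_qr (H := H) j'] at h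
  obtain ⟨h1, h2⟩ := B_inj hl hq (rem_lt hl.H_pos j) (rem_lt hl.H_pos j') (quot_lt hj)
    (quot_lt hj') (pos_qr hl.H_pos hj0) (pos_qr hl.H_pos hj0') h
  exact eq_of_qr h1 h2

theorem vvB_ne (hl : Lev q H P Y μ) (hq : Nat.Coprime L q) {j : ℕ} (hj0 : 0 < j)
    (hj : j < 2 * H * L) (h : (2 * H * L : ℤ) ∣ (vv H L P Y μ j - j) - H * L) : False := by
  rw [← cast_qr (H := H) j] at h
  exact B_ne hl hq (rem_lt hl.H_pos j) (quot_lt hj) (pos_qr hl.H_pos hj0) h

theorem vv_succ (hH : 0 < H) (k : ℕ) : vv H L P Y μ (k + 1) - vv H L P Y μ k =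
    dif H L P Y μ (k % (2 * H)) (k / (2 * H)) := by
  have h1 := Nat.div_add_mod k (2 * H)
  have h2 := rem_lt hH k
  unfold vv dif
  split_ifs with h
  · have e : k + 1 = (k % (2 * H) + 1) + 2 * H * (k / (2 * H)) := by omega
    have e1 : (k + 1) % (2 * H) = k % (2 * H) + 1 := by
      rw [e, Nat.add_mul_mod_self_left, Nat.mod_eq_of_lt h]
    have e2 : (k + 1) / (2 * H) = k / (2 * H) := by
      rw [e, Nat.add_mul_div_left _ _ (by omega), Nat.div_eq_of_lt h, zero_add]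
    rw [e1, e2]
  · have e : k + 1 = 0 + 2 * H * (k / (2 * H) + 1) := by
      rw [Nat.mul_add]; omega
    have e1 : (k + 1) % (2 * H) = 0 := by
      rw [e, Nat.add_mul_mod_self_left, Nat.zero_mod]
    have e2 : (k + 1) / (2 * H) = k / (2 * H) + 1 := by
      rw [e, Nat.add_mul_div_left _ _ (by omega), Nat.zero_div, zero_add]
    rw [e1, e2]

theorem vvC_inj (hl : Lev q H P Y μ) (hodd : Odd L) (hq : Nat.Coprime L q) {k k' : ℕ}
    (hk : k < 2 * H * L) (hk' : k' < 2 * H * L)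
    (h : (2 * H * L : ℤ) ∣ (vv H L P Y μ (k + 1) - vv H L P Y μ k) -
      (vv H L P Y μ (k' + 1) - vv H L P Y μ k')) : k = k' := by
  rw [vv_succ hl.H_pos, vv_succ hl.H_pos] at h
  obtain ⟨h1, h2⟩ := C_inj hl hodd hq (rem_lt hl.H_pos k) (rem_lt hl.H_pos k') (quot_lt hk)
    (quot_lt hk') h
  exact eq_of_qr h1 h2

/-- the special exponent -/
def sp (H L : ℕ) : ZMod (2 * H * L) := ((H * L : ℕ) : ZMod (2 * H * L))

/-- the presentation function -/
def psi (H L : ℕ) (P Y μ : ℕ → ℤ) (t : ZMod (2 * H * L)) : ZMod (2 * H * L) :=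
  ((vv H L P Y μ (t - sp H L).val : ℤ) : ZMod (2 * H * L))

theorem sp_neg : -sp H L = sp H L := by
  have h : sp H L + sp H L = 0 := by
    unfold sp
    rw [← Nat.cast_add]
    have : H * L + H * L = 2 * H * L := by ring
    rw [this, ZMod.natCast_self]
  rw [neg_eq_iff_add_eq_zero]
  exact h

theorem dvd_of_cast_eq {x y : ℤ} (h : (x : ZMod (2 * H * L)) = (y : ZMod (2 * H * L))) :
    (2 * H * L : ℤ) ∣ x - y := by
  have h1 := (ZMod.intCast_eq_intCast_iff_dvd_sub y x (2 * H * L)).1 h.symm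
  push_cast at h1
  exact h1

theorem eq_of_dvd {x y : ℤ} (h : (2 * H * L : ℤ) ∣ x - y) :
    (x : ZMod (2 * H * L)) = (y : ZMod (2 * H * L)) := by
  refine ((ZMod.intCast_eq_intCast_iff_dvd_sub y x (2 * H * L)).2 ?_).symm
  push_cast
  exact h

section
variable [NeZero (2 * H * L)]

theorem tcast (t : ZMod (2 * H * L)) :
    t = ((((t - sp H L).val : ℕ) : ℤ) : ZMod (2 * H * L)) + ((H * L : ℤ) : ZMod (2 * H * L)) := by
  have h : ((((t - sp H L).val : ℕ) : ℤ) : ZMod (2 * H * L)) = t - sp H L := by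
    push_cast
    exact ZMod.natCast_zmod_val _
  rw [h]
  unfold sp
  push_cast
  ring

theorem val_pos {t : ZMod (2 * H * L)} (h : t ≠ sp H L) : 0 < (t - sp H L).val := by
  rw [Nat.pos_iff_ne_zero]
  intro h0
  rw [ZMod.val_eq_zero, sub_eq_zero] at h0
  exact h h0

theorem pres (hl : Lev q H P Y μ) (hodd : Odd L) (hq : Nat.Coprime L q) :
    Pres (2 * H * L) (sp H L) (psi H L P Y μ) := by
  have back : ∀ t u : ZMod (2 * H * L), (t - sp H L).val = (u - sp H L).val → t = u := by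
    intro t u h
    have := ZMod.val_injective _ h
    exact sub_left_inj.1 this
  refine ⟨?_, ?_, ?_, ?_, ?_⟩
  · intro t u _ _ h
    exact back t u (vv_inj hl hq (ZMod.val_lt _) (ZMod.val_lt _) (dvd_of_cast_eq h))
  · intro t ht h
    have h1 : (2 * H * L : ℤ) ∣ vv H L P Y μ (t - sp H L).val - 0 := by
      apply dvd_of_cast_eq
      rw [Int.cast_zero]
      exact h
    rw [← vv_zero (L := L) hl] at h1
    have h2 := vv_inj hl hq (ZMod.val_lt _) (Nat.pos_of_ne_zero (NeZero.ne _)) h1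
    have := val_pos ht
    omega
  · intro t u ht hu h
    apply back
    refine vvB_inj hl hq (val_pos ht) (val_pos hu) (ZMod.val_lt _) (ZMod.val_lt _) ?_
    apply dvd_of_cast_eq
    unfold psi at h
    rw [Int.cast_sub, Int.cast_sub]
    have e1 := tcast t
    have e2 := tcast u
    linear_combination h + e1 - e2
  · intro t ht h
    refine vvB_ne hl hq (val_pos ht) (ZMod.val_lt (t - sp H L)) ?_
    apply dvd_of_cast_eq
    unfold psi at h
    rw [Int.cast_sub]
    have e1 := tcast t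
    linear_combination h + e1
  · intro t u ht ht1 hu hu1 h
    have hv : ∀ t : ZMod (2 * H * L), t ≠ sp H L →
        (t - 1 - sp H L).val + 1 = (t - sp H L).val := by
      intro t ht
      have h1 := val_pos ht
      obtain ⟨k, hk⟩ : ∃ k, (t - sp H L).val = k + 1 := ⟨(t - sp H L).val - 1, by omega⟩
      have hlt := ZMod.val_lt (t - sp H L)
      have h2 : t - 1 - sp H L = ((k : ℕ) : ZMod (2 * H * L)) := by
        have h3 : t - sp H L = ((k + 1 : ℕ) : ZMod (2 * H * L)) := by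
          rw [← hk]; exact (ZMod.natCast_zmod_val _).symm
        push_cast at h3
        linear_combination h3
      rw [h2, ZMod.val_natCast_of_lt (by omega), hk]
    unfold psi at h
    rw [← hv t ht, ← hv u hu] at h
    apply back
    rw [← hv t ht, ← hv u hu]
    congr 1
    refine vvC_inj hl hodd hq (ZMod.val_lt _) (ZMod.val_lt _) ?_
    apply dvd_of_cast_eq
    push_cast
    exact h

end

theorem neZero_of (hH : 0 < H) (hL : 0 < L) : NeZero (2 * H * L) :=
  ⟨by positivity⟩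

/-- the opposite index -/
theorem opp_qr (hH : 0 < H) {j : ℕ} (hj0 : 0 < j) (hj : j < 2 * H * L) :
    (0 < j % (2 * H) ∧ (2 * H * L - j) % (2 * H) = 2 * H - j % (2 * H) ∧
      (2 * H * L - j) / (2 * H) = L - 1 - j / (2 * H)) ∨
    (j % (2 * H) = 0 ∧ (2 * H * L - j) % (2 * H) = 0 ∧
      (2 * H * L - j) / (2 * H) = L - j / (2 * H)) := by
  have h1 := Nat.div_add_mod j (2 * H)
  have h2 := rem_lt hH j
  have h3 := quot_lt hj
  set v := j % (2 * H) with hv
  set t := j / (2 * H) with ht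
  rcases Nat.eq_zero_or_pos v with h0 | h0
  · right
    refine ⟨h0, ?_⟩
    have e : 2 * H * L - j = 0 + 2 * H * (L - t) := by
      rw [Nat.mul_sub]; omega
    rw [e, Nat.add_mul_mod_self_left, Nat.zero_mod, Nat.add_mul_div_left _ _ (by omega),
      Nat.zero_div, zero_add]
    exact ⟨rfl, rfl⟩
  · left
    refine ⟨h0, ?_⟩
    have e : 2 * H * L - j = (2 * H - v) + 2 * H * (L - 1 - t) := by
      obtain ⟨m, hm⟩ : ∃ m, L = t + 1 + m := ⟨L - t - 1, by omega⟩
      have e2 : L - 1 - t = m := by omega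
      have e3 : 2 * H * L = 2 * H * t + 2 * H + 2 * H * m := by rw [hm]; ring
      rw [e2, e3]
      omega
    have hlt : 2 * H - v < 2 * H := by omega
    rw [e, Nat.add_mul_mod_self_left, Nat.mod_eq_of_lt hlt, Nat.add_mul_div_left _ _ (by omega),
      Nat.div_eq_of_lt hlt, zero_add]
    exact ⟨rfl, rfl⟩

/-- the symmetry of a leveled base which makes the neofield commutative -/
structure LevComm (H : ℕ) (P Y μ : ℕ → ℤ) : Prop where
  mu_zero : μ 0 = 0
  sym : ∀ v, 0 < v → v < 2 * H → μ (2 * H - v) = -μ v ∧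
    P (2 * H - v) = P v - v + H * (1 - 2 * μ v) ∧ (2 : ℤ) ∣ Y (2 * H - v) - Y v

theorem vv_opp (hl : Lev q H P Y μ) (hc : LevComm H P Y μ) {j : ℕ} (hj0 : 0 < j)
    (hj : j < 2 * H * L) : (2 * H * L : ℤ) ∣
      vv H L P Y μ (2 * H * L - j) - (vv H L P Y μ j - j - H * L) := by
  have h3 := quot_lt hj
  have hcast := cast_qr (H := H) j
  unfold vv
  rcases opp_qr hl.H_pos hj0 hj with ⟨h0, h1, h2⟩ | ⟨h0, h1, h2⟩
  · rw [h1, h2]
    obtain ⟨e1, e2, c, hc⟩ := hc.sym _ h0 (rem_lt hl.H_pos j)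
    refine ⟨1 - μ (j % (2 * H)) + c, ?_⟩
    have e3 : Y (2 * H - j % (2 * H)) = Y (j % (2 * H)) + 2 * c := by linarith
    have e4 : ((L - 1 - j / (2 * H) : ℕ) : ℤ) = L - 1 - (j / (2 * H) : ℕ) := by omega
    unfold val
    rw [e1, e2, e3, e4]
    linear_combination -hcast
  · rw [h1, h2, h0]
    refine ⟨1, ?_⟩
    have e4 : ((L - j / (2 * H) : ℕ) : ℤ) = L - (j / (2 * H) : ℕ) := by omega
    rw [h0] at hcast
    unfold val
    rw [hl.P_zero, hl.Y_zero, hc.mu_zero, e4]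
    push_cast at hcast ⊢
    linear_combination -hcast

section
variable [NeZero (2 * H * L)]

theorem neg_val {t : ZMod (2 * H * L)} (ht : t ≠ sp H L) :
    -t ≠ sp H L ∧ (-t - sp H L).val = 2 * H * L - (t - sp H L).val := by
  constructor
  · intro h
    apply ht
    rw [← sp_neg, ← h, neg_neg]
  · have e : -t - sp H L = -(t - sp H L) := by
      have := sp_neg (H := H) (L := L)
      linear_combination this
    have hne : t - sp H L ≠ 0 := sub_ne_zero.2 ht
    have : NeZero (t - sp H L) := ⟨hne⟩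
    rw [e, ZMod.val_neg_of_ne_zero]

theorem psi_comm (hl : Lev q H P Y μ) (hc : LevComm H P Y μ) :
    ∀ t : ZMod (2 * H * L), t ≠ sp H L → -t ≠ sp H L ∧
      psi H L P Y μ (-t) = psi H L P Y μ t - t := by
  intro t ht
  obtain ⟨h1, h2⟩ := neg_val ht
  refine ⟨h1, ?_⟩
  unfold psi
  rw [h2]
  have h3 := eq_of_dvd (vv_opp hl hc (val_pos ht) (ZMod.val_lt (t - sp H L)))
  rw [h3, Int.cast_sub, Int.cast_sub]
  have e1 := tcast t
  linear_combination e1

theorem psi_noncomm (v : ℕ) (hv : 0 < v) (hvN : v < 2 * H * L)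
    (hn : ¬ (2 * H * L : ℤ) ∣ vv H L P Y μ (2 * H * L - v) - (vv H L P Y μ v - v - H * L)) :
    ¬ ∀ a b : JN (2 * H * L), ad (sp H L) (psi H L P Y μ) a b = ad (sp H L) (psi H L P Y μ) b a := by
  set t : ZMod (2 * H * L) := ((v : ℕ) : ZMod (2 * H * L)) + sp H L with htdef
  have hts : t - sp H L = ((v : ℕ) : ZMod (2 * H * L)) := by rw [htdef]; ring
  have hval : (t - sp H L).val = v := by rw [hts, ZMod.val_natCast_of_lt hvN]
  have ht : t ≠ sp H L := by
    intro h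
    rw [h, sub_self, ZMod.val_zero] at hval
    omega
  obtain ⟨h1, h2⟩ := neg_val ht
  refine noncomm_of _ _ t ht h1 ?_
  intro h
  apply hn
  apply dvd_of_cast_eq
  unfold psi at h
  rw [h2, hval] at h
  rw [h, Int.cast_sub, Int.cast_sub]
  have e1 := tcast t
  rw [hval] at e1
  linear_combination -e1

end

theorem hasComm (hl : Lev q H P Y μ) (hc : LevComm H P Y μ) (hodd : Odd L)
    (hq : Nat.Coprime L q) : HasComm (2 * H * L + 1) := by
  have : NeZero (2 * H * L) := neZero_of hl.H_pos hodd.pos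
  exact ⟨JN (2 * H * L), inferInstance, ad (sp H L) (psi H L P Y μ),
    isDNeofield _ _ (pres hl hodd hq), comm_iff _ _ (psi_comm hl hc)⟩

/-- a witness for non-commutativity -/
def LevNC (H : ℕ) (P μ : ℕ → ℤ) : Prop :=
  ∃ v, 0 < v ∧ v < 2 * H ∧ ((¬ (H : ℤ) ∣ P (2 * H - v) - P v + v) ∨
    ∃ e : ℤ, P (2 * H - v) - P v + v = H * e ∧ e - (2 * μ (2 * H - v) + 1) ≠ 0 ∧
      |e - (2 * μ (2 * H - v) + 1)| < 5)

theorem hasNonComm (hl : Lev q H P Y μ) (hn : LevNC H P μ) (hodd : Odd L)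
    (hq : Nat.Coprime L q) (hL : 5 ≤ L) : HasNonComm (2 * H * L + 1) := by
  have : NeZero (2 * H * L) := neZero_of hl.H_pos hodd.pos
  refine ⟨JN (2 * H * L), inferInstance, ad (sp H L) (psi H L P Y μ),
    isDNeofield _ _ (pres hl hodd hq), ?_⟩
  obtain ⟨v, hv0, hv, hc⟩ := hn
  have hvN : v < 2 * H * L := lt_of_lt_of_le hv (Nat.le_mul_of_pos_right _ (by omega))
  refine psi_noncomm v hv0 hvN ?_
  intro hdvd
  have e0 : v % (2 * H) = v := Nat.mod_eq_of_lt hv
  have e1 : v / (2 * H) = 0 := Nat.div_eq_of_lt hv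
  rcases opp_qr hl.H_pos hv0 hvN with ⟨-, h1, h2⟩ | ⟨h0, -, -⟩
  swap
  · rw [e0] at h0; omega
  rw [e0] at h1
  rw [e1] at h2
  unfold vv at hdvd
  rw [h1, h2, e0, e1] at hdvd
  unfold val at hdvd
  have e4 : ((L - 1 - 0 : ℕ) : ℤ) = L - 1 := by omega
  rw [e4] at hdvd
  have key : P (2 * H - v) + (H : ℤ) * (L * Y (2 * H - v) + (2 * μ (2 * H - v) + 1) * (L - 1)) -
      (P v + H * (L * Y v + (2 * μ v + 1) * ((0 : ℕ) : ℤ)) - v - H * L) =
      (P (2 * H - v) - P v + v) + H * (L * (Y (2 * H - v) - Y v + (2 * μ (2 * H - v) + 1) + 1) -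
        (2 * μ (2 * H - v) + 1)) := by push_cast; ring
  rw [key] at hdvd
  rcases hc with hc | ⟨e, he, he0, he5⟩
  · apply hc
    have h3 := dvd_trans (⟨2 * L, by ring⟩ : (H : ℤ) ∣ 2 * H * L) hdvd
    exact (dvd_add_left (Dvd.intro _ rfl)).1 h3
  · rw [he, ← mul_add] at hdvd
    have h3 := cancel_H hl.H_pos hdvd
    have h4 := dvd_trans (⟨2, by ring⟩ : (L : ℤ) ∣ 2 * L) h3
    have h5 : (L : ℤ) ∣ e - (2 * μ (2 * H - v) + 1) := by
      have e6 : e + (L * (Y (2 * H - v) - Y v + (2 * μ (2 * H - v) + 1) + 1) -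
          (2 * μ (2 * H - v) + 1)) = (e - (2 * μ (2 * H - v) + 1)) +
          L * (Y (2 * H - v) - Y v + (2 * μ (2 * H - v) + 1) + 1) := by ring
      rw [e6] at h4
      exact (dvd_add_left (Dvd.intro _ rfl)).1 h4
    have := Int.eq_zero_of_abs_lt_dvd h5 (by
      have : (5 : ℤ) ≤ L := by exact_mod_cast hL
      linarith)
    exact he0 this

end Pool.Agent.DNeo
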