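import Pool.Agent.DNeo.Asm

/-!
# Checking a leveled base

The functions `P`, `Y`, `μ` of a leveled base are given by the digits in base `65536` of three
numbers: the digits are `P v + 32768`, `Y v + 32768`, `μ v + 2`.
-/

set_option autoImplicit false

namespace Pool.Agent.DNeo

/-- the digit at `v` -/
def dg (c v : ℕ) : ℕ := c / 65536 ^ v % 65536

/-- the function with shifted digits -/
def fn (s c : ℕ) (v : ℕ) : ℤ := (dg c v : ℤ) - s

/-- all numbers below `n` -/
def allB : ℕ → (ℕ → Bool) → Bool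
  | 0, _ => true
  | n + 1, f => f n && allB n f

theorem of_allB {f : ℕ → Bool} : ∀ {n : ℕ}, allB n f = true → ∀ i < n, f i = true
  | 0, _, i, hi => absurd hi (Nat.not_lt_zero i)
  | n + 1, h, i, hi => by
    rw [allB, Bool.and_eq_true] at h
    rcases Nat.lt_succ_iff_lt_or_eq.1 hi with h1 | h1
    · exact of_allB h.2 i h1
    · rw [h1]
      exact h.1

/-- `x - y` is even, for natural numbers -/
def evn (x y : ℕ) : Bool := x % 2 == y % 2

/-- the check of `A` for two indices -/
def chkA (H cP cY cM v w : ℕ) : Bool :=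
  v == w || !(dg cP v % H == dg cP w % H) ||
    (dg cM w == dg cM v && dg cP w == dg cP v && !(evn (dg cY v) (dg cY w))) ||
    (dg cM w + dg cM v == 3 && dg cP w + H * (2 * dg cM v) == dg cP v + 3 * H &&
      evn (dg cY v) (dg cY w))

/-- the check of `B` for two indices -/
def chkB (H cP cY cM v w : ℕ) : Bool :=
  v == 0 || w == 0 || v == w || !((dg cP v + w) % H == (dg cP w + v) % H) ||
    (dg cM w == dg cM v && dg cP w + v == dg cP v + w && !(evn (dg cY v) (dg cY w))) ||
    (dg cM w + dg cM v == 5 && dg cP w + v + H * (2 * dg cM v) == dg cP v + w + 5 * H &&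
      evn (dg cY v) (dg cY w))

/-- the check of `B0` for an index -/
def chkB0 (H cP cY cM w : ℕ) : Bool :=
  w == 0 || !((dg cP w) % H == (w + 32768) % H) ||
    (dg cM w + dg cM 0 == 5 && dg cP w == w + 32768 && evn (dg cY w) 0) ||
    (dg cM w == dg cM 0 && dg cP w + 5 * H == w + 32768 + H * (2 * dg cM 0) &&
      !(evn (dg cY w) 0))

/-- the class of a step, shifted by a multiple of `2 * H` -/
def cl (H cP cY v : ℕ) : ℕ :=
  if v + 1 < 2 * H then
    (dg cP (v + 1) + (2 * H - 1) * dg cP v + H * (dg cY (v + 1) + dg cY v)) % (2 * H)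
  else (H + (2 * H - 1) * dg cP v + 32768 + H * dg cY v) % (2 * H)

/-- the next slope -/
def nx (H cM v : ℕ) : ℕ := if v + 1 < 2 * H then dg cM (v + 1) else dg cM 0

/-- the slope steps and slopes -/
def chkM (q H cM v : ℕ) : Bool :=
  q % (2 * dg cM v - 3 + (3 - 2 * dg cM v)) == 0 &&
    q % (2 * dg cM v - 5 + (5 - 2 * dg cM v)) == 0 &&
    q % (nx H cM v - dg cM v + (dg cM v - nx H cM v)) == 0

/-- the whole check -/
def chk (q H cP cY cM : ℕ) : Bool :=
  !(H == 0) && dg cP 0 == 32768 && dg cY 0 == 32768 &&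
    allB (2 * H) (fun v => chkM q H cM v) &&
    allB (2 * H) (fun v => allB (2 * H) fun w => chkA H cP cY cM v w) &&
    allB (2 * H) (fun v => allB (2 * H) fun w => chkB H cP cY cM v w) &&
    allB (2 * H) (fun w => chkB0 H cP cY cM w) &&
    allB (2 * H) (fun v => allB (2 * H) fun w => v == w || !(cl H cP cY v == cl H cP cY w))

/-- the check of commutativity -/
def chkC (H cP cY cM : ℕ) : Bool :=
  dg cM 0 == 2 && allB (2 * H) fun v => v == 0 ||
    (dg cM (2 * H - v) + dg cM v == 4 &&
      dg cP (2 * H - v) + v + H * (2 * dg cM v) == dg cP v + 5 * H &&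
      evn (dg cY (2 * H - v)) (dg cY v))

/-- the check of the witness -/
def chkN (H cP cM v e : ℕ) : Bool :=
  !(v == 0) && decide (v < 2 * H) && (!((dg cP (2 * H - v) + v) % H == dg cP v % H) ||
    (dg cP (2 * H - v) + v + 8 * H == dg cP v + H * e &&
      !(e == 2 * dg cM (2 * H - v) + 5) && decide (e < 2 * dg cM (2 * H - v) + 10) &&
      decide (2 * dg cM (2 * H - v) < e)))

theorem evn_iff {x y : ℕ} (s : ℕ) : evn x y = true ↔ (2 : ℤ) ∣ ((x : ℤ) - s) - ((y : ℤ) - s) := by
  unfold evn
  rw [beq_iff_eq]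
  omega

theorem evn_zero {x : ℕ} : evn x 0 = true ↔ (2 : ℤ) ∣ ((x : ℤ) - (32768 : ℕ)) := by
  unfold evn
  rw [beq_iff_eq]
  omega

theorem dvd_nat {d a : ℕ} {x : ℤ} (hx : |x| = (a : ℤ)) {q : ℕ} (h : q % d = 0) (hd : d = a) :
    x ∣ (q : ℤ) := by
  subst hd
  rw [← abs_dvd, hx]
  exact Int.natCast_dvd_natCast.2 (Nat.dvd_of_mod_eq_zero h)

theorem abs_of_nat (a b : ℕ) : |(a : ℤ) - b| = ((a - b + (b - a) : ℕ) : ℤ) := by
  rcases le_total a b with h | h
  · rw [abs_of_nonpos (by omega)]
    omega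
  · rw [abs_of_nonneg (by omega)]
    omega

theorem mod_iff {H a b : ℕ} : a % H = b % H ↔ (H : ℤ) ∣ (a : ℤ) - b := by
  rw [← Int.modEq_iff_dvd, Int.natCast_modEq_iff]
  exact ⟨fun h => h.symm, fun h => h.symm⟩

/-- the check implies that the base is leveled -/
theorem lev_of_chk {q H cP cY cM : ℕ} (h : chk q H cP cY cM = true) :
    Lev q H (fn 32768 cP) (fn 32768 cY) (fn 2 cM) := by
  unfold chk at h
  simp only [Bool.and_eq_true] at h
  obtain ⟨⟨⟨⟨⟨⟨⟨hH, hP⟩, hY⟩, hM⟩, hA⟩, hB⟩, hB0⟩, hC⟩ := h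
  have hH' : 0 < H := by
    rcases Nat.eq_zero_or_pos H with h0 | h0
    · subst h0
      exact absurd hH (by decide)
    · exact h0
  have hHH : (1 : ℤ) ≤ H := by exact_mod_cast hH'
  refine ⟨hH', ?_, ?_, ?_, ?_, ?_, ?_, ?_⟩
  · unfold fn
    rw [eq_of_beq hP]
    norm_num
  · unfold fn
    rw [eq_of_beq hY]
    norm_num
  · intro v hv
    have h1 := of_allB hM v hv
    unfold chkM at h1
    simp only [Bool.and_eq_true, beq_iff_eq] at h1
    obtain ⟨⟨h1, h2⟩, h3⟩ := h1
    refine ⟨?_, ?_, ?_⟩
    · have e : 2 * fn 2 cM v + 1 = ((2 * dg cM v : ℕ) : ℤ) - (3 : ℕ) := by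
        unfold fn
        push_cast
        ring
      rw [e]
      exact dvd_nat (abs_of_nat _ _) h1 rfl
    · have e : 2 * fn 2 cM v - 1 = ((2 * dg cM v : ℕ) : ℤ) - (5 : ℕ) := by
        unfold fn
        push_cast
        ring
      rw [e]
      exact dvd_nat (abs_of_nat _ _) h2 rfl
    · have e : stp H (fn 2 cM) v = ((nx H cM v : ℕ) : ℤ) - (dg cM v : ℕ) := by
        unfold stp nx fn
        split_ifs <;> ring
      rw [e]
      exact dvd_nat (abs_of_nat _ _) h3 rfl
  · intro v w hv hw hvw hd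
    have h1 := of_allB (of_allB hA v hv) w hw
    unfold chkA at h1
    simp only [Bool.or_eq_true, Bool.and_eq_true, Bool.not_eq_true', beq_iff_eq,
      beq_eq_false_iff_ne] at h1
    have hd' : dg cP v % H = dg cP w % H := by
      rw [mod_iff]
      have e : fn 32768 cP v - fn 32768 cP w = (dg cP v : ℤ) - dg cP w := by
        unfold fn
        ring
      rwa [e] at hd
    rcases h1 with ((h1 | h1) | h1) | h1
    · exact absurd h1 hvw
    · exact absurd hd' h1
    · obtain ⟨⟨h1, h2⟩, h3⟩ := h1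
      refine Or.inl ⟨?_, ?_, ?_⟩
      · unfold fn
        rw [h1]
      · unfold fn
        rw [h2]
      · rw [Bool.eq_false_iff] at h3
        exact fun hc => h3 ((evn_iff 32768).2 hc)
    · obtain ⟨⟨h1, h2⟩, h3⟩ := h1
      refine Or.inr ⟨?_, ?_, (evn_iff 32768).1 h3⟩
      · unfold fn
        omega
      · unfold fn
        have h2' : (dg cP w : ℤ) + H * (2 * dg cM v) = dg cP v + 3 * H := by exact_mod_cast h2
        push_cast
        linear_combination h2'
  · intro v w hv0 hw0 hv hw hvw hd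
    have h1 := of_allB (of_allB hB v hv) w hw
    unfold chkB at h1
    simp only [Bool.or_eq_true, Bool.and_eq_true, Bool.not_eq_true', beq_iff_eq,
      beq_eq_false_iff_ne] at h1
    have hd' : (dg cP v + w) % H = (dg cP w + v) % H := by
      rw [mod_iff]
      have e : (fn 32768 cP v - v) - (fn 32768 cP w - w) =
          ((dg cP v + w : ℕ) : ℤ) - ((dg cP w + v : ℕ) : ℤ) := by
        unfold fn
        push_cast
        ring
      rwa [e] at hd
    rcases h1 with ((((h1 | h1) | h1) | h1) | h1) | h1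
    · omega
    · omega
    · exact absurd h1 hvw
    · exact absurd hd' h1
    · obtain ⟨⟨h1, h2⟩, h3⟩ := h1
      refine Or.inl ⟨?_, ?_, ?_⟩
      · unfold fn
        rw [h1]
      · unfold fn
        omega
      · rw [Bool.eq_false_iff] at h3
        exact fun hc => h3 ((evn_iff 32768).2 hc)
    · obtain ⟨⟨h1, h2⟩, h3⟩ := h1
      refine Or.inr ⟨?_, ?_, (evn_iff 32768).1 h3⟩
      · unfold fn
        omega
      · unfold fn
        have h2' : (dg cP w : ℤ) + v + H * (2 * dg cM v) = dg cP v + w + 5 * H := by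
          exact_mod_cast h2
        push_cast
        linear_combination h2'
  · intro w hw0 hw hd
    have h1 := of_allB hB0 w hw
    unfold chkB0 at h1
    simp only [Bool.or_eq_true, Bool.and_eq_true, Bool.not_eq_true', beq_iff_eq,
      beq_eq_false_iff_ne] at h1
    have hd' : dg cP w % H = (w + 32768) % H := by
      rw [mod_iff]
      have e : fn 32768 cP w - w = (dg cP w : ℤ) - ((w + 32768 : ℕ) : ℤ) := by
        unfold fn
        push_cast
        ring
      rwa [e] at hd
    rcases h1 with ((h1 | h1) | h1) | h1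
    · omega
    · exact absurd hd' h1
    · obtain ⟨⟨h1, h2⟩, h3⟩ := h1
      refine Or.inl ⟨?_, ?_, evn_zero.1 h3⟩
      · unfold fn
        omega
      · unfold fn
        omega
    · obtain ⟨⟨h1, h2⟩, h3⟩ := h1
      refine Or.inr ⟨?_, ?_, ?_⟩
      · unfold fn
        rw [h1]
      · unfold fn
        have h2' : (dg cP w : ℤ) + 5 * H = w + 32768 + H * (2 * dg cM 0) := by
          exact_mod_cast h2
        push_cast
        linear_combination h2'
      · rw [Bool.eq_false_iff] at h3
        exact fun hc => h3 (evn_zero.2 hc)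
  · intro v w hv hw hd
    have h1 := of_allB (of_allB hC v hv) w hw
    simp only [Bool.or_eq_true, Bool.not_eq_true', beq_iff_eq, beq_eq_false_iff_ne] at h1
    rcases h1 with h1 | h1
    · exact h1
    · exfalso
      apply h1
      have key : ∀ u : ℕ, ∃ (x : ℕ) (c : ℤ), cl H cP cY u = x % (2 * H) ∧
          cls H (fn 32768 cP) (fn 32768 cY) u = x + 2 * H * c := by
        intro u
        unfold cl cls
        split_ifs with hu
        · refine ⟨_, -(dg cP u) - dg cY u, rfl, ?_⟩
          have h2 : 1 ≤ 2 * H := by omega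
          unfold fn
          push_cast [Nat.cast_sub h2]
          ring
        · refine ⟨_, -(dg cP u) - dg cY u + 16384 , rfl, ?_⟩
          have h2 : 1 ≤ 2 * H := by omega
          unfold fn
          push_cast [Nat.cast_sub h2]
          ring
      obtain ⟨x, c, e1, e2⟩ := key v
      obtain ⟨y, d, e3, e4⟩ := key w
      rw [e1, e3, mod_iff]
      rw [e2, e4] at hd
      push_cast
      have e5 : (x : ℤ) - y = (x + 2 * H * c - (y + 2 * H * d)) + 2 * H * (d - c) := by ring
      rw [e5]
      exact dvd_add hd (Dvd.intro _ rfl)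

theorem comm_of_chk {H cP cY cM : ℕ} (h : chkC H cP cY cM = true) :
    LevComm H (fn 32768 cP) (fn 32768 cY) (fn 2 cM) := by
  unfold chkC at h
  simp only [Bool.and_eq_true] at h
  obtain ⟨h0, h1⟩ := h
  refine ⟨?_, ?_⟩
  · unfold fn
    rw [eq_of_beq h0]
    norm_num
  · intro v hv0 hv
    have h2 := of_allB h1 v hv
    simp only [Bool.or_eq_true, Bool.and_eq_true, beq_iff_eq] at h2
    rcases h2 with h2 | ⟨⟨h2, h3⟩, h4⟩
    · omega
    · refine ⟨?_, ?_, (evn_iff 32768).1 h4⟩
      · unfold fn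
        omega
      · unfold fn
        have h3' : (dg cP (2 * H - v) : ℤ) + v + H * (2 * dg cM v) = dg cP v + 5 * H := by
          exact_mod_cast h3
        push_cast
        linear_combination h3'

theorem nc_of_chk {H cP cM : ℕ} (v e : ℕ) (h : chkN H cP cM v e = true) :
    LevNC H (fn 32768 cP) (fn 2 cM) := by
  unfold chkN at h
  simp only [Bool.and_eq_true, Bool.or_eq_true, Bool.not_eq_true', beq_iff_eq,
    beq_eq_false_iff_ne, decide_eq_true_eq] at h
  obtain ⟨⟨h0, hv⟩, h1⟩ := h
  refine ⟨v, by omega, hv, ?_⟩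
  rcases h1 with h1 | ⟨⟨⟨h1, h2⟩, h3⟩, h4⟩
  · left
    intro hd
    apply h1
    rw [mod_iff]
    have e : fn 32768 cP (2 * H - v) - fn 32768 cP v + v =
        ((dg cP (2 * H - v) + v : ℕ) : ℤ) - (dg cP v : ℕ) := by
      unfold fn
      push_cast
      ring
    rwa [e] at hd
  · right
    refine ⟨(e : ℤ) - 8, ?_, ?_, ?_⟩
    · unfold fn
      have h1' : (dg cP (2 * H - v) : ℤ) + v + 8 * H = dg cP v + H * e := by exact_mod_cast h1
      push_cast
      linear_combination h1'
    · unfold fn
      omega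
    · rw [abs_lt]
      unfold fn
      omega

end Pool.Agent.DNeo
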