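import Mathlib

/-!
# Lifting leveled bases: the arithmetic core

`N = 2 H L` with `L` odd. Every `j < N` is written as `j = v + 2 H t` with `v < 2 H`, `t < L`.
-/

set_option autoImplicit false

namespace Pool.Agent.DNeo

/-- the value at `v + 2 H t` -/
def val (H L : ℕ) (P Y μ : ℕ → ℤ) (v t : ℕ) : ℤ :=
  P v + H * (L * Y v + (2 * μ v + 1) * t)

/-- the residue class modulo `2 H` of the difference of two consecutive values -/
def cls (H : ℕ) (P Y : ℕ → ℤ) (v : ℕ) : ℤ :=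
  if v + 1 < 2 * H then P (v + 1) - P v + H * (Y (v + 1) - Y v) else H - P v - H * Y v

/-- the slope step -/
def stp (H : ℕ) (μ : ℕ → ℤ) (v : ℕ) : ℤ :=
  if v + 1 < 2 * H then μ (v + 1) - μ v else μ 0 - μ v

/-- a leveled base modulo `2 H` -/
structure Lev (q H : ℕ) (P Y μ : ℕ → ℤ) : Prop where
  H_pos : 0 < H
  P_zero : P 0 = 0
  Y_zero : Y 0 = 0
  cop : ∀ v, v < 2 * H → 2 * μ v + 1 ∣ (q : ℤ) ∧ 2 * μ v - 1 ∣ (q : ℤ) ∧ stp H μ v ∣ (q : ℤ)
  A : ∀ v v', v < 2 * H → v' < 2 * H → v ≠ v' → (H : ℤ) ∣ P v - P v' →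
    (μ v' = μ v ∧ P v' = P v ∧ ¬ (2 : ℤ) ∣ Y v - Y v') ∨
    (μ v' = -1 - μ v ∧ P v' = P v - H * (2 * μ v + 1) ∧ (2 : ℤ) ∣ Y v - Y v')
  B : ∀ v v', 0 < v → 0 < v' → v < 2 * H → v' < 2 * H → v ≠ v' →
    (H : ℤ) ∣ (P v - v) - (P v' - v') →
    (μ v' = μ v ∧ P v' - v' = P v - v ∧ ¬ (2 : ℤ) ∣ Y v - Y v') ∨
    (μ v' = 1 - μ v ∧ P v' - v' = P v - v - H * (2 * μ v - 1) ∧ (2 : ℤ) ∣ Y v - Y v')
  B0 : ∀ v', 0 < v' → v' < 2 * H → (H : ℤ) ∣ P v' - v' →
    (μ v' = 1 - μ 0 ∧ P v' - v' = 0 ∧ (2 : ℤ) ∣ Y v') ∨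
    (μ v' = μ 0 ∧ P v' - v' = H * (2 * μ 0 - 1) ∧ ¬ (2 : ℤ) ∣ Y v')
  C : ∀ v v', v < 2 * H → v' < 2 * H → (2 * H : ℤ) ∣ cls H P Y v - cls H P Y v' → v = v'

variable {q H L : ℕ} {P Y μ : ℕ → ℤ}

theorem cop_of_dvd {m : ℤ} (hm : m ∣ (q : ℤ)) (hL : Nat.Coprime L q) : IsCoprime m (L : ℤ) := by
  have h1 : IsCoprime (q : ℤ) (L : ℤ) := by
    rw [Int.isCoprime_iff_gcd_eq_one, Int.gcd_natCast_natCast]
    exact hL.symm
  exact IsCoprime.of_isCoprime_of_dvd_left h1 hm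

theorem dvd_cancel {m x : ℤ} (hm : IsCoprime m (L : ℤ)) (h : (L : ℤ) ∣ m * x) : (L : ℤ) ∣ x :=
  hm.symm.dvd_of_dvd_mul_left h

theorem dvd_cancel2 {m x : ℤ} (hodd : Odd m) (hm : IsCoprime m (L : ℤ)) (h : 2 * (L : ℤ) ∣ m * x) :
    2 * (L : ℤ) ∣ x := by
  have h2 : IsCoprime m (2 : ℤ) := by
    obtain ⟨k, hk⟩ := hodd
    exact ⟨1, -k, by rw [hk]; ring⟩
  exact (h2.mul_right hm).symm.dvd_of_dvd_mul_left h

theorem odd1 (x : ℤ) : Odd (2 * x + 1) := ⟨x, rfl⟩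

theorem odd2 (x : ℤ) : Odd (2 * x - 1) := ⟨x - 1, by ring⟩

theorem eq_of_dvd_sub {x y : ℤ} (h : (L : ℤ) ∣ x - y) (h1 : x - y < L) (h2 : -(L : ℤ) < x - y) :
    x = y := by
  have := Int.eq_zero_of_abs_lt_dvd h (abs_lt.2 ⟨h2, h1⟩)
  linarith

theorem not_dvd_of_pos_lt {x : ℤ} (h0 : 0 < x) (h1 : x < 2 * L) : ¬ 2 * (L : ℤ) ∣ x := by
  intro h
  have := Int.le_of_dvd h0 h
  linarith

/-- cancel `H` -/
theorem cancel_H (hH : 0 < H) {x : ℤ} (h : (2 * H * L : ℤ) ∣ H * x) : 2 * (L : ℤ) ∣ x := by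
  have hH' : (H : ℤ) ≠ 0 := by exact_mod_cast hH.ne'
  have e : (2 * H * L : ℤ) = H * (2 * L) := by ring
  rw [e] at h
  exact (mul_dvd_mul_iff_left hH').1 h

theorem dvd_H (a b : ℤ) (h : (2 * H * L : ℤ) ∣ a - b + H * 0) : (H : ℤ) ∣ a - b := by
  have e : (2 * H * L : ℤ) = H * (2 * L) := by ring
  rw [e] at h
  simpa using (dvd_trans (Dvd.intro _ rfl) h)

/-- two lines which are translates -/
theorem core_same {m p p' y y' : ℤ} {t t' : ℕ} (hH : 0 < H) (hm : IsCoprime m (L : ℤ))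
    (ht : t < L) (ht' : t' < L) (hp : p' = p) (hy : ¬ (2 : ℤ) ∣ y - y')
    (h : (2 * H * L : ℤ) ∣ (p + H * (L * y + m * t)) - (p' + H * (L * y' + m * t'))) : False := by
  have e : (p + H * (L * y + m * t)) - (p' + H * (L * y' + m * t')) =
      H * (L * (y - y') + m * ((t : ℤ) - t')) := by rw [hp]; ring
  rw [e] at h
  have h2 := cancel_H hH h
  have h3 : (L : ℤ) ∣ m * ((t : ℤ) - t') := by
    have h4 : (L : ℤ) ∣ L * (y - y') + m * ((t : ℤ) - t') := dvd_trans ⟨2, by ring⟩ h2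
    exact (dvd_add_right (Dvd.intro _ rfl)).1 h4
  have h5 := dvd_cancel hm h3
  have h6 : (t : ℤ) = t' := eq_of_dvd_sub h5 (by omega) (by omega)
  rw [h6] at h2
  have hL : (L : ℤ) ≠ 0 := by
    have : 0 < L := by omega
    exact_mod_cast this.ne'
  have h7 : (L : ℤ) * 2 ∣ L * (y - y') := by
    have : (L : ℤ) * (y - y') + m * ((t' : ℤ) - t') = L * (y - y') := by ring
    rw [this] at h2
    rwa [mul_comm] at h2
  exact hy ((mul_dvd_mul_iff_left hL).1 h7)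

/-- the same line -/
theorem core_eq {m p y : ℤ} {t t' : ℕ} (hH : 0 < H) (hodd : Odd m) (hm : IsCoprime m (L : ℤ))
    (ht : t < L) (ht' : t' < L)
    (h : (2 * H * L : ℤ) ∣ (p + H * (L * y + m * t)) - (p + H * (L * y + m * t'))) : t = t' := by
  have e : (p + H * (L * y + m * t)) - (p + H * (L * y + m * t')) =
      H * (m * ((t : ℤ) - t')) := by ring
  rw [e] at h
  have h2 := dvd_cancel2 hodd hm (cancel_H hH h)
  have h3 : (L : ℤ) ∣ (t : ℤ) - t' := dvd_trans ⟨2, by ring⟩ h2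
  have h6 : (t : ℤ) = t' := eq_of_dvd_sub h3 (by omega) (by omega)
  exact_mod_cast h6

/-- two lines with opposite slopes -/
theorem core_opp {m p p' y y' : ℤ} {t t' : ℕ} (hH : 0 < H) (hodd : Odd m)
    (hm : IsCoprime m (L : ℤ)) (ht : t < L) (ht' : t' < L) (hp : p' = p - H * m)
    (hy : (2 : ℤ) ∣ y - y')
    (h : (2 * H * L : ℤ) ∣ (p + H * (L * y + m * t)) - (p' + H * (L * y' + (-m) * t'))) :
    False := by
  have e : (p + H * (L * y + m * t)) - (p' + H * (L * y' + (-m) * t')) =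
      H * (L * (y - y') + m * (1 + t + t')) := by rw [hp]; ring
  rw [e] at h
  have h2 := cancel_H hH h
  have h3 : 2 * (L : ℤ) ∣ L * (y - y') := by
    rw [mul_comm]; exact mul_dvd_mul_left _ hy
  have h4 : 2 * (L : ℤ) ∣ m * (1 + t + t') := (dvd_add_right h3).1 h2
  have h5 := dvd_cancel2 hodd hm h4
  exact not_dvd_of_pos_lt (by omega) (by omega) h5

theorem A_inj (hl : Lev q H P Y μ) (hq : Nat.Coprime L q) {v v' t t' : ℕ} (hv : v < 2 * H)
    (hv' : v' < 2 * H) (ht : t < L) (ht' : t' < L)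
    (h : (2 * H * L : ℤ) ∣ val H L P Y μ v t - val H L P Y μ v' t') : v = v' ∧ t = t' := by
  unfold val at h
  have hc := cop_of_dvd (hl.cop v hv).1 hq
  by_cases hvv : v = v'
  · subst hvv
    exact ⟨rfl, core_eq hl.H_pos (odd1 _) hc ht ht' h⟩
  · exfalso
    have hH : (H : ℤ) ∣ P v - P v' := by
      have h1 : (H : ℤ) ∣ (P v + H * (L * Y v + (2 * μ v + 1) * t)) -
          (P v' + H * (L * Y v' + (2 * μ v' + 1) * t')) := dvd_trans ⟨2 * L, by ring⟩ h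
      have e : (P v + H * (L * Y v + (2 * μ v + 1) * t)) -
          (P v' + H * (L * Y v' + (2 * μ v' + 1) * t')) = (P v - P v') +
          H * ((L * Y v + (2 * μ v + 1) * t) - (L * Y v' + (2 * μ v' + 1) * t')) := by ring
      rw [e] at h1
      exact (dvd_add_left (Dvd.intro _ rfl)).1 h1
    rcases hl.A v v' hv hv' hvv hH with ⟨h1, h2, h3⟩ | ⟨h1, h2, h3⟩
    · rw [h1] at h
      exact core_same hl.H_pos hc ht ht' h2 h3 h
    · have e : 2 * μ v' + 1 = -(2 * μ v + 1) := by rw [h1]; ring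
      rw [e] at h
      exact core_opp hl.H_pos (odd1 _) hc ht ht' h2 h3 h

/-- the second family of values: `val - j` -/
theorem B_eq (v t : ℕ) : val H L P Y μ v t - ((v : ℤ) + 2 * H * t) =
    (P v - v) + H * (L * Y v + (2 * μ v - 1) * t) := by
  unfold val; ring

theorem B_dvd {v v' t t' : ℕ}
    (h : (2 * H * L : ℤ) ∣ ((P v - v) + H * (L * Y v + (2 * μ v - 1) * t)) -
      ((P v' - v') + H * (L * Y v' + (2 * μ v' - 1) * t'))) :
    (H : ℤ) ∣ (P v - v) - (P v' - v') := by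
  have h1 := dvd_trans (⟨2 * L, by ring⟩ : (H : ℤ) ∣ 2 * H * L) h
  have e : ((P v - v) + H * (L * Y v + (2 * μ v - 1) * t)) -
      ((P v' - v') + H * (L * Y v' + (2 * μ v' - 1) * t')) = ((P v - v) - (P v' - v')) +
      H * ((L * Y v + (2 * μ v - 1) * t) - (L * Y v' + (2 * μ v' - 1) * t')) := by ring
  rw [e] at h1
  exact (dvd_add_left (Dvd.intro _ rfl)).1 h1

theorem B_zero (hl : Lev q H P Y μ) (hq : Nat.Coprime L q) {v' t t' : ℕ} (hv0 : 0 < v')
    (hv' : v' < 2 * H) (ht0 : 0 < t) (ht : t < L) (ht' : t' < L)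
    (h : (2 * H * L : ℤ) ∣ ((P 0 - (0 : ℕ)) + H * (L * Y 0 + (2 * μ 0 - 1) * t)) -
      ((P v' - v') + H * (L * Y v' + (2 * μ v' - 1) * t'))) : False := by
  have hH := B_dvd h
  rw [hl.P_zero] at hH h
  rw [hl.Y_zero] at h
  simp only [Nat.cast_zero, sub_zero, zero_sub, dvd_neg, mul_zero, zero_add] at hH h
  have hc := cop_of_dvd (hl.cop 0 (by have := hl.H_pos; omega)).2.1 hq
  rcases hl.B0 v' hv0 hv' hH with ⟨h1, h2, h3⟩ | ⟨h1, h2, h3⟩
  · rw [h2, h1] at h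
    have e : (H : ℤ) * ((2 * μ 0 - 1) * t) -
        (0 + H * (L * Y v' + (2 * (1 - μ 0) - 1) * t')) =
        H * ((2 * μ 0 - 1) * (t + t') - L * Y v') := by ring
    rw [e] at h
    have h4 := cancel_H hl.H_pos h
    have h5 : 2 * (L : ℤ) ∣ L * Y v' := by rw [mul_comm]; exact mul_dvd_mul_left _ h3
    have h6 := dvd_cancel2 (odd2 _) hc ((dvd_sub_left h5).1 h4)
    exact not_dvd_of_pos_lt (by omega) (by omega) h6
  · rw [h2, h1] at h
    have e : (H : ℤ) * ((2 * μ 0 - 1) * t) -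
        (H * (2 * μ 0 - 1) + H * (L * Y v' + (2 * μ 0 - 1) * t')) =
        H * ((2 * μ 0 - 1) * ((t : ℤ) - (1 + t')) - L * Y v') := by ring
    rw [e] at h
    have h4 := cancel_H hl.H_pos h
    have h5 : (L : ℤ) ∣ (2 * μ 0 - 1) * ((t : ℤ) - (1 + t')) := by
      have h6 := dvd_trans (⟨2, by ring⟩ : (L : ℤ) ∣ 2 * L) h4
      exact (dvd_sub_left (Dvd.intro _ rfl)).1 h6
    have h6 : (t : ℤ) = 1 + t' := eq_of_dvd_sub (dvd_cancel hc h5) (by omega) (by omega)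
    rw [h6] at h4
    have h7 : 2 * (L : ℤ) ∣ L * Y v' := by
      have : (2 * μ 0 - 1) * ((1 + t' : ℤ) - (1 + t')) - L * Y v' = -(L * Y v') := by ring
      rw [this] at h4
      exact (dvd_neg).1 h4
    have hL : (L : ℤ) ≠ 0 := by
      have : 0 < L := by omega
      exact_mod_cast this.ne'
    rw [mul_comm] at h7
    exact h3 ((mul_dvd_mul_iff_left hL).1 h7)

theorem B_inj (hl : Lev q H P Y μ) (hq : Nat.Coprime L q) {v v' t t' : ℕ} (hv : v < 2 * H)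
    (hv' : v' < 2 * H) (ht : t < L) (ht' : t' < L) (h0 : 0 < v ∨ 0 < t) (h0' : 0 < v' ∨ 0 < t')
    (h : (2 * H * L : ℤ) ∣ (val H L P Y μ v t - ((v : ℤ) + 2 * H * t)) -
      (val H L P Y μ v' t' - ((v' : ℤ) + 2 * H * t'))) : v = v' ∧ t = t' := by
  rw [B_eq, B_eq] at h
  have hc := cop_of_dvd (hl.cop v hv).2.1 hq
  by_cases hvv : v = v'
  · subst hvv
    exact ⟨rfl, core_eq hl.H_pos (odd2 _) hc ht ht' h⟩
  · exfalso
    rcases Nat.eq_zero_or_pos v with rfl | hvp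
    · have ht0 : 0 < t := by omega
      exact B_zero hl hq (Nat.pos_of_ne_zero (Ne.symm hvv)) hv' ht0 ht ht' h
    rcases Nat.eq_zero_or_pos v' with rfl | hvp'
    · have ht0 : 0 < t' := by omega
      refine B_zero hl hq hvp hv ht0 ht' ht ?_
      rw [← dvd_neg, neg_sub]
      exact h
    rcases hl.B v v' hvp hvp' hv hv' hvv (B_dvd h) with ⟨h1, h2, h3⟩ | ⟨h1, h2, h3⟩
    · rw [h1] at h
      exact core_same hl.H_pos hc ht ht' h2 h3 h
    · have e : 2 * μ v' - 1 = -(2 * μ v - 1) := by rw [h1]; ring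
      rw [e] at h
      exact core_opp hl.H_pos (odd2 _) hc ht ht' h2 h3 h

theorem B_ne (hl : Lev q H P Y μ) (hq : Nat.Coprime L q) {v t : ℕ} (hv : v < 2 * H)
    (ht : t < L) (h0 : 0 < v ∨ 0 < t)
    (h : (2 * H * L : ℤ) ∣ (val H L P Y μ v t - ((v : ℤ) + 2 * H * t)) - H * L) : False := by
  rw [B_eq] at h
  have hL : (L : ℤ) ≠ 0 := by
    have : 0 < L := by omega
    exact_mod_cast this.ne'
  have hH : (H : ℤ) ∣ P v - v := by
    have h1 := dvd_trans (⟨2 * L, by ring⟩ : (H : ℤ) ∣ 2 * H * L) h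
    have e : (P v - v) + H * (L * Y v + (2 * μ v - 1) * t) - H * L = (P v - v) +
        H * ((L * Y v + (2 * μ v - 1) * t) - L) := by ring
    rw [e] at h1
    exact (dvd_add_left (Dvd.intro _ rfl)).1 h1
  rcases Nat.eq_zero_or_pos v with rfl | hvp
  · have ht0 : 0 < t := by omega
    have hc := cop_of_dvd (hl.cop 0 hv).2.1 hq
    rw [hl.P_zero, hl.Y_zero] at h
    have e : (0 - ((0 : ℕ) : ℤ)) + H * (L * 0 + (2 * μ 0 - 1) * t) - H * L =
        H * ((2 * μ 0 - 1) * t - L) := by push_cast; ring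
    rw [e] at h
    have h4 := cancel_H hl.H_pos h
    have h6 := dvd_trans (⟨2, by ring⟩ : (L : ℤ) ∣ 2 * L) h4
    have h7 := dvd_cancel hc ((dvd_sub_left (dvd_refl _)).1 h6)
    have := Int.le_of_dvd (by omega) h7
    omega
  · have hc := cop_of_dvd (hl.cop 0 (by omega)).2.1 hq
    rcases hl.B0 v hvp hv hH with ⟨h1, h2, h3⟩ | ⟨h1, h2, h3⟩
    · rw [h2, h1] at h
      have e : 0 + (H : ℤ) * (L * Y v + (2 * (1 - μ 0) - 1) * t) - H * L =
          H * (L * (Y v - 1) - (2 * μ 0 - 1) * t) := by ring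
      rw [e] at h
      have h4 := cancel_H hl.H_pos h
      have h6 := dvd_trans (⟨2, by ring⟩ : (L : ℤ) ∣ 2 * L) h4
      have h7 := dvd_cancel hc ((dvd_sub_right (Dvd.intro _ rfl)).1 h6)
      have ht0 : t = 0 := by
        rcases Nat.eq_zero_or_pos t with h8 | h8
        · exact h8
        · have := Int.le_of_dvd (by omega) h7
          omega
      rw [ht0] at h4
      have h9 : (L : ℤ) * 2 ∣ L * (Y v - 1) := by
        have : (L : ℤ) * (Y v - 1) - (2 * μ 0 - 1) * ((0 : ℕ) : ℤ) = L * (Y v - 1) := by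
          push_cast; ring
        rw [this] at h4
        rwa [mul_comm] at h4
      have h10 := (mul_dvd_mul_iff_left hL).1 h9
      omega
    · rw [h2, h1] at h
      have e : (H : ℤ) * (2 * μ 0 - 1) + (H : ℤ) * (L * Y v + (2 * μ 0 - 1) * t) - H * L =
          H * ((2 * μ 0 - 1) * (1 + t) + L * (Y v - 1)) := by ring
      rw [e] at h
      have h4 := cancel_H hl.H_pos h
      have h6 := dvd_trans (⟨2, by ring⟩ : (L : ℤ) ∣ 2 * L) h4
      have h7 := dvd_cancel hc ((dvd_add_left (Dvd.intro _ rfl)).1 h6)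
      have h8 : (1 : ℤ) + t = L := by
        have := Int.le_of_dvd (by omega) h7
        omega
      rw [h8] at h4
      have h9 : (L : ℤ) * 2 ∣ L * ((2 * μ 0 - 1) + (Y v - 1)) := by
        have : (2 * μ 0 - 1) * (L : ℤ) + L * (Y v - 1) = L * ((2 * μ 0 - 1) + (Y v - 1)) := by ring
        rw [this] at h4
        rwa [mul_comm] at h4
      have h10 := (mul_dvd_mul_iff_left hL).1 h9
      omega

/-- the difference of consecutive values -/
def dif (H L : ℕ) (P Y μ : ℕ → ℤ) (v t : ℕ) : ℤ :=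
  if v + 1 < 2 * H then val H L P Y μ (v + 1) t - val H L P Y μ v t
  else val H L P Y μ 0 (t + 1) - val H L P Y μ v t

theorem dif_cls (hl : Lev q H P Y μ) (hodd : Odd L) (v t : ℕ) :
    (2 * H : ℤ) ∣ dif H L P Y μ v t - cls H P Y v := by
  obtain ⟨l, hl'⟩ := hodd
  have hLz : (L : ℤ) = 2 * l + 1 := by exact_mod_cast hl'
  unfold dif cls val
  split_ifs
  · refine ⟨l * (Y (v + 1) - Y v) + (μ (v + 1) - μ v) * t, ?_⟩
    rw [hLz]; ring
  · rw [hl.P_zero, hl.Y_zero]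
    refine ⟨μ 0 * (t + 1) - l * Y v - μ v * t, ?_⟩
    rw [hLz]; push_cast; ring

theorem dif_sub (hl : Lev q H P Y μ) (v t t' : ℕ) :
    dif H L P Y μ v t - dif H L P Y μ v t' = H * (2 * (stp H μ v * ((t : ℤ) - t'))) := by
  unfold dif stp val
  split_ifs
  · ring
  · rw [hl.P_zero, hl.Y_zero]; push_cast; ring

theorem C_inj (hl : Lev q H P Y μ) (hodd : Odd L) (hq : Nat.Coprime L q) {v v' t t' : ℕ}
    (hv : v < 2 * H) (hv' : v' < 2 * H) (ht : t < L) (ht' : t' < L)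
    (h : (2 * H * L : ℤ) ∣ dif H L P Y μ v t - dif H L P Y μ v' t') : v = v' ∧ t = t' := by
  have h1 := dif_cls hl hodd v t
  have h2 := dif_cls hl hodd v' t'
  have h3 : (2 * H : ℤ) ∣ dif H L P Y μ v t - dif H L P Y μ v' t' :=
    dvd_trans ⟨L, rfl⟩ h
  have h4 : (2 * H : ℤ) ∣ cls H P Y v - cls H P Y v' := by
    have e : cls H P Y v - cls H P Y v' = (dif H L P Y μ v t - dif H L P Y μ v' t') -
        (dif H L P Y μ v t - cls H P Y v) + (dif H L P Y μ v' t' - cls H P Y v') := by ring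
    rw [e]
    exact dvd_add (dvd_sub h3 h1) h2
  have hvv := hl.C v v' hv hv' h4
  subst hvv
  refine ⟨rfl, ?_⟩
  rw [dif_sub hl] at h
  have h5 := cancel_H hl.H_pos h
  have h6 : (L : ℤ) ∣ stp H μ v * ((t : ℤ) - t') := by
    have h20 : (2 : ℤ) ≠ 0 := by norm_num
    exact (mul_dvd_mul_iff_left h20).1 h5
  have h7 := dvd_cancel (cop_of_dvd (hl.cop v hv).2.2 hq) h6
  have h8 : (t : ℤ) = t' := eq_of_dvd_sub h7 (by omega) (by omega)
  exact_mod_cast h8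

end Pool.Agent.DNeo
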