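import Mathlib

/-!
# D-neofields: definitions

A neofield with multiplicative group `J \ {0}` is given by a group with zero `J` and an addition
`add`. `x ^ t` is the power in the group.
-/

set_option autoImplicit false

namespace Pool.Agent.DNeo

/-- `(J, add)` is a loop with identity element `0`. -/
structure IsLoop {J : Type} (add : J → J → J) (z : J) : Prop where
  zero_add : ∀ a, add z a = a
  add_zero : ∀ a, add a z = a
  left_div : ∀ a b, ∃! c, add a c = b
  right_div : ∀ a b, ∃! c, add c a = b

/-- `J` with the addition `add` and its multiplication is a neofield. -/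
structure IsNeofield (J : Type) [GroupWithZero J] (add : J → J → J) : Prop where
  loop : IsLoop add 0
  mul_add : ∀ a b c : J, a * add b c = add (a * b) (a * c)
  add_mul : ∀ a b c : J, add b c * a = add (b * a) (c * a)

/-- The divisibility property for the generator `x` (`r` is the order of the neofield). -/
def PropD (J : Type) [GroupWithZero J] (add : J → J → J) (r : ℕ) (x : Jˣ) : Prop :=
  ∀ t u : ℤ, add 1 ((x : J) ^ t) ≠ 0 → add 1 ((x : J) ^ (t - 1)) ≠ 0 →
    add 1 ((x : J) ^ u) ≠ 0 → add 1 ((x : J) ^ (u - 1)) ≠ 0 →
    add 1 ((x : J) ^ t) / add 1 ((x : J) ^ (t - 1)) =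
      add 1 ((x : J) ^ u) / add 1 ((x : J) ^ (u - 1)) → t ≡ u [ZMOD (r - 1 : ℕ)]

/-- A D-neofield of order `r` (Keedwell): a finite neofield whose multiplicative group is cyclic
with a generator `x` which has the divisibility property. -/
structure IsDNeofield (J : Type) [GroupWithZero J] (add : J → J → J) (r : ℕ) : Prop where
  neofield : IsNeofield J add
  finite : Finite J
  card : Nat.card J = r
  gen : ∃ x : Jˣ, (∀ y : Jˣ, y ∈ Subgroup.zpowers x) ∧ PropD J add r x

/-- There is a commutative D-neofield of order `r`. -/
def HasComm (r : ℕ) : Prop :=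
  ∃ (J : Type) (_ : GroupWithZero J) (add : J → J → J),
    IsDNeofield J add r ∧ ∀ a b, add a b = add b a

/-- There is a non-commutative D-neofield of order `r`. -/
def HasNonComm (r : ℕ) : Prop :=
  ∃ (J : Type) (_ : GroupWithZero J) (add : J → J → J),
    IsDNeofield J add r ∧ ¬ ∀ a b, add a b = add b a

end Pool.Agent.DNeo
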