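import Pool.Agent.DNeo.Asm

/-!
# The infinite family of leveled bases: powers of two
-/

set_option autoImplicit false

namespace Pool.Agent.DNeo

/-- triangular numbers -/
def TT (v : ℕ) : ℤ := ((v * (v + 1) / 2 : ℕ) : ℤ)

theorem two_TT (v : ℕ) : 2 * TT v = v * (v + 1) := by
  have h : 2 * (v * (v + 1) / 2) = v * (v + 1) :=
    Nat.mul_div_cancel' (Nat.even_mul_succ_self v).two_dvd
  unfold TT
  exact_mod_cast h

/-- `P` of the family -/
def fP (H : ℕ) (μ : ℕ → ℤ) (v : ℕ) : ℤ := TT v + H * (-v + μ v)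

/-- `Y` of the family -/
def fY (μ : ℕ → ℤ) (v : ℕ) : ℤ := v + μ v

theorem cop_two {a : ℤ} (ha : Odd a) (n : ℕ) : IsCoprime ((2 : ℤ) ^ n) a := by
  obtain ⟨k, hk⟩ := ha
  have h : IsCoprime (2 : ℤ) a := ⟨-k, 1, by rw [hk]; ring⟩
  exact h.pow_left

/-- the key divisibility -/
theorem two_pow_dvd {n : ℕ} {x y : ℤ} (h : (2 : ℤ) ^ n ∣ (x - y) * (x + y + 1)) :
    (2 : ℤ) ^ n ∣ x - y ∨ (2 : ℤ) ^ n ∣ x + y + 1 := by
  rcases Int.even_or_odd (x - y) with h1 | h1
  · left
    have h2 : Odd (x + y + 1) := by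
      obtain ⟨k, hk⟩ := h1
      exact ⟨k + y, by linarith⟩
    exact (cop_two h2 n).dvd_of_dvd_mul_right h
  · right
    exact (cop_two h1 n).dvd_of_dvd_mul_left h

theorem eq_one_of {H : ℕ} {x c : ℤ} (h0 : 0 < x) (h1 : x < 4 * H) (h : x = 2 * H * c) : c = 1 := by
  have hH : (0 : ℤ) < H := by linarith
  have h2 : 0 < c := by
    by_contra hc
    nlinarith
  have h3 : c < 2 := by
    by_contra hc
    nlinarith
  omega

/-- from the divisibility of the difference of two triangular numbers -/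
theorem tri_dvd {m : ℕ} {H : ℕ} (hH : H = 2 ^ m) {v w : ℕ} {z : ℤ}
    (h : (H : ℤ) ∣ TT v - TT w + H * z) (hv : v < 2 * H) (hw : w < 2 * H) :
    v = w ∨ (v : ℤ) + w + 1 = 2 * H := by
  have h1 : (H : ℤ) ∣ TT v - TT w := (dvd_add_left (Dvd.intro _ rfl)).1 h
  have e : (2 * H : ℤ) = 2 ^ (m + 1) := by
    rw [hH]
    push_cast
    ring
  have h2 : (2 : ℤ) ^ (m + 1) ∣ ((v : ℤ) - w) * (v + w + 1) := by
    rw [← e]
    have e2 : ((v : ℤ) - w) * (v + w + 1) = 2 * (TT v - TT w) := by
      have h3 := two_TT v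
      have h4 := two_TT w
      linear_combination h4 - h3
    rw [e2]
    exact mul_dvd_mul_left 2 h1
  rcases two_pow_dvd h2 with h3 | h3
  · left
    rw [← e] at h3
    have := Int.eq_zero_of_abs_lt_dvd h3 (abs_lt.2 ⟨by omega, by omega⟩)
    omega
  · right
    rw [← e] at h3
    obtain ⟨c, hc⟩ := h3
    have := eq_one_of (x := (v : ℤ) + w + 1) (by positivity) (by omega) hc
    rw [this, mul_one] at hc
    exact hc

/-- the requirements on the slopes -/
structure Slp (q H : ℕ) (μ : ℕ → ℤ) : Prop where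
  cop : ∀ v, v < 2 * H → 2 * μ v + 1 ∣ (q : ℤ) ∧ 2 * μ v - 1 ∣ (q : ℤ) ∧ stp H μ v ∣ (q : ℤ)
  zer : μ 0 = 0
  one : μ 1 = 1
  A : ∀ v w, v + w + 1 = 2 * H → μ w = μ v ∨ μ w = -1 - μ v
  B : ∀ v w, v < 2 * H → w < 2 * H → v + w = 2 * H + 1 → μ w = μ v ∨ μ w = 1 - μ v

variable {q m H : ℕ} {μ : ℕ → ℤ}

theorem lev_fam (hH : H = 2 ^ m) (hs : Slp q H μ) : Lev q H (fP H μ) (fY μ) μ := by
  have hpos : 0 < H := by
    rw [hH]
    positivity
  refine ⟨hpos, ?_, ?_, hs.cop, ?_, ?_, ?_, ?_⟩
  · unfold fP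
    rw [hs.zer]
    simp [TT]
  · unfold fY
    rw [hs.zer]
    simp
  · intro v w hv hw hvw hd
    have hd' : (H : ℤ) ∣ TT v - TT w + H * (-v + μ v - (-w + μ w)) := by
      have e : TT v - TT w + H * (-v + μ v - (-w + μ w)) = fP H μ v - fP H μ w := by
        unfold fP
        ring
      rwa [e]
    rcases tri_dvd hH hd' hv hw with h1 | h1
    · exact absurd h1 hvw
    have h2 := two_TT v
    have h3 := two_TT w
    have h4 : (w : ℤ) = 2 * H - 1 - v := by linarith
    have h5 : TT w = TT v + H * (2 * H - 2 * v - 1) := by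
      have h6 : 2 * TT w = 2 * (TT v + H * (2 * H - 2 * v - 1)) := by
        rw [h3, h4]
        linear_combination -h2
      linarith
    have hw' : fP H μ w = fP H μ v + H * (μ w - μ v) := by
      unfold fP
      rw [h5, h4]
      ring
    rcases hs.A v w (by omega) with h7 | h7
    · refine Or.inl ⟨h7, ?_, ?_⟩
      · rw [hw', h7]
        ring
      · unfold fY
        rw [h7]
        omega
    · refine Or.inr ⟨h7, ?_, ?_⟩
      · rw [hw', h7]
        ring
      · unfold fY
        rw [h7]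
        omega
  · intro v w hv0 hw0 hv hw hvw hd
    obtain ⟨a, rfl⟩ : ∃ a, v = a + 1 := ⟨v - 1, by omega⟩
    obtain ⟨b, rfl⟩ : ∃ b, w = b + 1 := ⟨w - 1, by omega⟩
    have ha := two_TT a
    have hb := two_TT b
    have h2 := two_TT (a + 1)
    have h3 := two_TT (b + 1)
    have ea : TT (a + 1) = TT a + (a + 1) := by
      push_cast at h2
      linarith
    have eb : TT (b + 1) = TT b + (b + 1) := by
      push_cast at h3
      linarith
    have hd' : (H : ℤ) ∣ TT a - TT b +
        H * (-(a + 1) + μ (a + 1) - (-(b + 1) + μ (b + 1))) := by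
      have e : TT a - TT b + H * (-(a + 1) + μ (a + 1) - (-(b + 1) + μ (b + 1))) =
          (fP H μ (a + 1) - ((a + 1 : ℕ) : ℤ)) - (fP H μ (b + 1) - ((b + 1 : ℕ) : ℤ)) := by
        unfold fP
        rw [ea, eb]
        push_cast
        ring
      rwa [e]
    rcases tri_dvd hH hd' (by omega) (by omega) with h1 | h1
    · omega
    have h4 : (b : ℤ) = 2 * H - 1 - a := by linarith
    have h5 : TT b = TT a + H * (2 * H - 2 * a - 1) := by
      have h6 : 2 * TT b = 2 * (TT a + H * (2 * H - 2 * a - 1)) := by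
        rw [hb, h4]
        linear_combination -ha
      linarith
    have hw' : fP H μ (b + 1) - ((b + 1 : ℕ) : ℤ) =
        fP H μ (a + 1) - ((a + 1 : ℕ) : ℤ) + H * (μ (b + 1) - μ (a + 1)) := by
      unfold fP
      rw [ea, eb, h5]
      push_cast
      rw [h4]
      ring
    rcases hs.B (a + 1) (b + 1) hv hw (by omega) with h7 | h7
    · refine Or.inl ⟨h7, ?_, ?_⟩
      · rw [hw', h7]
        ring
      · unfold fY
        rw [h7]
        push_cast
        omega
    · refine Or.inr ⟨h7, ?_, ?_⟩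
      · rw [hw', h7]
        ring
      · unfold fY
        rw [h7]
        push_cast
        omega
  · intro w hw0 hw hd
    obtain ⟨b, rfl⟩ : ∃ b, w = b + 1 := ⟨w - 1, by omega⟩
    have hb := two_TT b
    have h3 := two_TT (b + 1)
    have eb : TT (b + 1) = TT b + (b + 1) := by
      push_cast at h3
      linarith
    have hd' : (H : ℤ) ∣ TT b - TT 0 + H * (-(b + 1) + μ (b + 1)) := by
      have e : TT b - TT 0 + H * (-(b + 1) + μ (b + 1)) =
          fP H μ (b + 1) - ((b + 1 : ℕ) : ℤ) := by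
        unfold fP
        rw [eb]
        simp only [TT]
        push_cast
        ring
      rwa [e]
    rcases tri_dvd hH hd' (by omega) (by omega) with h1 | h1
    · subst h1
      refine Or.inl ⟨?_, ?_, ?_⟩
      · rw [hs.zer]
        simpa using hs.one
      · unfold fP
        have := hs.one
        simp only [zero_add] at *
        rw [this]
        simp [TT]
      · unfold fY
        have := hs.one
        simp only [zero_add] at *
        rw [this]
        norm_num
    · omega
  · intro v w hv hw hd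
    have key : ∀ u : ℕ, u < 2 * H → ∃ c : ℤ,
        cls H (fP H μ) (fY μ) u = (if u + 1 < 2 * H then (u : ℤ) + 1 else 0) + 2 * H * c := by
      intro u hu
      unfold cls
      split_ifs with h1
      · refine ⟨μ (u + 1) - μ u, ?_⟩
        have h2 := two_TT u
        have h3 := two_TT (u + 1)
        have eb : TT (u + 1) = TT u + (u + 1) := by
          push_cast at h3
          linarith
        unfold fP fY
        rw [eb]
        push_cast
        ring
      · have h2 := two_TT u
        have h4 : (u : ℤ) = 2 * H - 1 := by omega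
        have h5 : TT u = H * (2 * H - 1) := by
          have : 2 * TT u = 2 * (H * (2 * H - 1)) := by
            rw [h2, h4]
            ring
          linarith
        refine ⟨1 - H - μ u, ?_⟩
        unfold fP fY
        rw [h5, h4]
        ring
    obtain ⟨c, hc⟩ := key v hv
    obtain ⟨d, hd2⟩ := key w hw
    rw [hc, hd2] at hd
    have hd3 : (2 * H : ℤ) ∣ (if v + 1 < 2 * H then (v : ℤ) + 1 else 0) -
        (if w + 1 < 2 * H then (w : ℤ) + 1 else 0) := by
      have e : (if v + 1 < 2 * H then (v : ℤ) + 1 else 0) -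
          (if w + 1 < 2 * H then (w : ℤ) + 1 else 0) =
          ((if v + 1 < 2 * H then (v : ℤ) + 1 else 0) + 2 * H * c -
          ((if w + 1 < 2 * H then (w : ℤ) + 1 else 0) + 2 * H * d)) + 2 * H * (d - c) := by ring
      rw [e]
      exact dvd_add hd (Dvd.intro _ rfl)
    have h6 := Int.eq_zero_of_abs_lt_dvd hd3 (by
      rw [abs_lt]
      split_ifs <;> constructor <;> omega)
    split_ifs at h6 <;> omega

theorem comm_fam (hs : Slp q H μ) (hsym : ∀ v, 0 < v → v < 2 * H → μ (2 * H - v) = -μ v) :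
    LevComm H (fP H μ) (fY μ) μ := by
  refine ⟨hs.zer, fun v hv0 hv => ⟨hsym v hv0 hv, ?_, ?_⟩⟩
  · have h1 := two_TT v
    have h2 := two_TT (2 * H - v)
    have h4 : ((2 * H - v : ℕ) : ℤ) = 2 * H - v := by omega
    have h5 : TT (2 * H - v) = TT v - v + H * (2 * H - 2 * v + 1) := by
      have : 2 * TT (2 * H - v) = 2 * (TT v - v + H * (2 * H - 2 * v + 1)) := by
        rw [h2, h4]
        linear_combination -h1
      linarith
    unfold fP
    rw [h5, h4, hsym v hv0 hv]
    ring
  · unfold fY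
    rw [hsym v hv0 hv]
    omega

theorem nc_fam {v : ℕ} (hv0 : 0 < v) (hv : v < 2 * H)
    (h1 : μ (2 * H - v) + μ v ≠ 0) (h2 : |μ (2 * H - v) + μ v| < 5) : LevNC H (fP H μ) μ := by
  refine ⟨v, hv0, hv, Or.inr ⟨1 + μ (2 * H - v) - μ v, ?_, ?_, ?_⟩⟩
  · have h1 := two_TT v
    have h2 := two_TT (2 * H - v)
    have h4 : ((2 * H - v : ℕ) : ℤ) = 2 * H - v := by omega
    have h5 : TT (2 * H - v) = TT v - v + H * (2 * H - 2 * v + 1) := by
      have : 2 * TT (2 * H - v) = 2 * (TT v - v + H * (2 * H - 2 * v + 1)) := by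
        rw [h2, h4]
        linear_combination -h1
      linarith
    unfold fP
    rw [h5, h4]
    ring
  · intro h
    apply h1
    linarith
  · have e : 1 + μ (2 * H - v) - μ v - (2 * μ (2 * H - v) + 1) = -(μ (2 * H - v) + μ v) := by
      ring
    rwa [e, abs_neg]

end Pool.Agent.DNeo
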