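import Pool.Agent.DNeo.Fam
import Pool.Agent.DNeo.Data

/-!
# The slopes of the infinite family
-/

set_option autoImplicit false

namespace Pool.Agent.DNeo

/-- the slopes of the commutative family, in the order of the chain -/
def nuC (H s : ℕ) : ℤ :=
  if s < 1 then 0 else if s < 3 then -1 else if s < 4 then 0 else if s < H then 1
  else if s < H + 1 then 0 else if s + 3 < 2 * H then -1 else if s + 2 < 2 * H then 0 else 1

/-- the slopes of the non-commutative family, in the order of the chain -/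
def nuN (H s : ℕ) : ℤ :=
  if s < 1 then 0 else if s < 3 then -1 else if s < 4 then 0 else if s < H then 1
  else if s < H + 1 then 0 else if s + 7 < 2 * H then -1 else if s + 5 < 2 * H then 0
  else if s + 3 < 2 * H then -1 else if s + 2 < 2 * H then 0 else 1

/-- the slopes in terms of the index -/
def muS (ν : ℕ → ℤ) (H v : ℕ) : ℤ := if v % 2 = 0 then ν v else ν (2 * H - v)

/-- the requirements in the order of the chain -/
structure Chain (H : ℕ) (ν : ℕ → ℤ) : Prop where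
  val : ∀ s, s < 2 * H → ν s = -1 ∨ ν s = 0 ∨ ν s = 1
  z0 : ν 0 = 0
  z1 : ν 1 = -1
  z2 : ν (2 * H - 1) = 1
  A : ∀ s, s % 2 = 0 → s + 1 < 2 * H → ν (s + 1) = ν s ∨ ν (s + 1) = -1 - ν s
  B : ∀ s, s % 2 = 1 → s + 1 < 2 * H → ν (s + 1) = ν s ∨ ν (s + 1) = 1 - ν s
  st0 : ∀ s, s % 2 = 0 → s < 2 * H → ν (2 * H - 1 - s) ≠ ν s
  st1 : ∀ s, s % 2 = 1 → 2 < s → s < 2 * H → ν (2 * H + 1 - s) ≠ ν s

theorem cases6 {x : ℤ} (h : x = -1 ∨ x = 0 ∨ x = 1) : 2 * x + 1 ∣ (6 : ℤ) ∧ 2 * x - 1 ∣ (6 : ℤ) := by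
  rcases h with rfl | rfl | rfl <;> decide

theorem step6 {x y : ℤ} (hx : x = -1 ∨ x = 0 ∨ x = 1) (hy : y = -1 ∨ y = 0 ∨ y = 1)
    (h : x ≠ y) : x - y ∣ (6 : ℤ) := by
  rcases hx with rfl | rfl | rfl <;> rcases hy with rfl | rfl | rfl <;>
    first | exact absurd rfl h | decide

theorem slp_of {H : ℕ} {ν : ℕ → ℤ} (h1 : 1 ≤ H) (hc : Chain H ν) : Slp 6 H (muS ν H) := by
  have h0 : muS ν H 0 = 0 := hc.z0
  have hval : ∀ v, v < 2 * H → muS ν H v = -1 ∨ muS ν H v = 0 ∨ muS ν H v = 1 := by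
    intro v hv
    unfold muS
    split_ifs with h
    · exact hc.val v hv
    · exact hc.val _ (by omega)
  refine ⟨?_, h0, ?_, ?_, ?_⟩
  · intro v hv
    refine ⟨(cases6 (hval v hv)).1, (cases6 (hval v hv)).2, ?_⟩
    unfold stp
    split_ifs with h2
    · refine step6 (hval _ h2) (hval v hv) ?_
      unfold muS
      rcases Nat.mod_two_eq_zero_or_one v with h3 | h3
      · rw [if_neg (by omega), if_pos h3]
        have e : 2 * H - (v + 1) = 2 * H - 1 - v := by omega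
        rw [e]
        exact hc.st0 v h3 hv
      · rw [if_pos (by omega), if_neg (by omega)]
        have e : v + 1 = 2 * H + 1 - (2 * H - v) := by omega
        rw [e]
        exact hc.st1 (2 * H - v) (by omega) (by omega) (by omega)
    · obtain rfl : v = 2 * H - 1 := by omega
      have e : muS ν H (2 * H - 1) = -1 := by
        unfold muS
        rw [if_neg (by omega)]
        have e2 : 2 * H - (2 * H - 1) = 1 := by omega
        rw [e2]
        exact hc.z1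
      rw [h0, e]
      decide
  · show muS ν H 1 = 1
    unfold muS
    rw [if_neg (by norm_num)]
    exact hc.z2
  · intro v w h
    unfold muS
    rcases Nat.mod_two_eq_zero_or_one v with h3 | h3
    · rw [if_neg (by omega), if_pos h3]
      have e : 2 * H - w = v + 1 := by omega
      rw [e]
      exact hc.A v h3 (by omega)
    · rw [if_pos (by omega), if_neg (by omega)]
      have e : 2 * H - v = w + 1 := by omega
      rw [e]
      rcases hc.A w (by omega) (by omega) with h4 | h4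
      · exact Or.inl h4.symm
      · right
        linarith
  · intro v w hv hw h
    unfold muS
    rcases Nat.mod_two_eq_zero_or_one v with h3 | h3
    · rw [if_neg (by omega : ¬ w % 2 = 0), if_pos h3]
      have e : v = (2 * H - w) + 1 := by omega
      have h5 := hc.B (2 * H - w) (by omega) (by omega)
      rw [← e] at h5
      rcases h5 with h4 | h4
      · exact Or.inl h4.symm
      · right
        linarith
    · rw [if_pos (by omega), if_neg (by omega)]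
      have e : w = (2 * H - v) + 1 := by omega
      have h5 := hc.B (2 * H - v) (by omega) (by omega)
      rw [← e] at h5
      exact h5

theorem sym_of {H : ℕ} {ν : ℕ → ℤ} (hs : ∀ s, 0 < s → s < 2 * H → ν (2 * H - s) = -ν s) :
    ∀ v, 0 < v → v < 2 * H → muS ν H (2 * H - v) = -muS ν H v := by
  intro v hv0 hv
  unfold muS
  rcases Nat.mod_two_eq_zero_or_one v with h3 | h3
  · rw [if_pos (by omega), if_pos h3]
    exact hs v hv0 hv
  · rw [if_neg (by omega), if_neg (by omega)]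
    exact hs _ (by omega) (by omega)

theorem nuC_val (H s : ℕ) :
    (s < 1 ∧ nuC H s = 0) ∨ (1 ≤ s ∧ s < 3 ∧ nuC H s = -1) ∨
    (3 ≤ s ∧ s < 4 ∧ nuC H s = 0) ∨ (4 ≤ s ∧ s < H ∧ nuC H s = 1) ∨
    (4 ≤ s ∧ H ≤ s ∧ s < H + 1 ∧ nuC H s = 0) ∨
    (4 ≤ s ∧ H + 1 ≤ s ∧ s + 3 < 2 * H ∧ nuC H s = -1) ∨
    (4 ≤ s ∧ H + 1 ≤ s ∧ 2 * H ≤ s + 3 ∧ s + 2 < 2 * H ∧ nuC H s = 0) ∨
    (4 ≤ s ∧ H + 1 ≤ s ∧ 2 * H ≤ s + 2 ∧ nuC H s = 1) := by
  unfold nuC
  by_cases h1 : s < 1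
  · exact Or.inl ⟨h1, if_pos h1⟩
  rw [if_neg h1]
  refine Or.inr ?_
  by_cases h2 : s < 3
  · exact Or.inl ⟨not_lt.1 h1, h2, if_pos h2⟩
  rw [if_neg h2]
  refine Or.inr ?_
  by_cases h3 : s < 4
  · exact Or.inl ⟨not_lt.1 h2, h3, if_pos h3⟩
  rw [if_neg h3]
  refine Or.inr ?_
  by_cases h4 : s < H
  · exact Or.inl ⟨not_lt.1 h3, h4, if_pos h4⟩
  rw [if_neg h4]
  refine Or.inr ?_
  by_cases h5 : s < H + 1
  · exact Or.inl ⟨not_lt.1 h3, not_lt.1 h4, h5, if_pos h5⟩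
  rw [if_neg h5]
  refine Or.inr ?_
  by_cases h6 : s + 3 < 2 * H
  · exact Or.inl ⟨not_lt.1 h3, not_lt.1 h5, h6, if_pos h6⟩
  rw [if_neg h6]
  refine Or.inr ?_
  by_cases h7 : s + 2 < 2 * H
  · exact Or.inl ⟨not_lt.1 h3, not_lt.1 h5, not_lt.1 h6, h7, if_pos h7⟩
  rw [if_neg h7]
  exact Or.inr ⟨not_lt.1 h3, not_lt.1 h5, not_lt.1 h7, rfl⟩

theorem nuN_val (H s : ℕ) :
    (s < 1 ∧ nuN H s = 0) ∨ (1 ≤ s ∧ s < 3 ∧ nuN H s = -1) ∨
    (3 ≤ s ∧ s < 4 ∧ nuN H s = 0) ∨ (4 ≤ s ∧ s < H ∧ nuN H s = 1) ∨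
    (4 ≤ s ∧ H ≤ s ∧ s < H + 1 ∧ nuN H s = 0) ∨
    (4 ≤ s ∧ H + 1 ≤ s ∧ s + 7 < 2 * H ∧ nuN H s = -1) ∨
    (4 ≤ s ∧ H + 1 ≤ s ∧ 2 * H ≤ s + 7 ∧ s + 5 < 2 * H ∧ nuN H s = 0) ∨
    (4 ≤ s ∧ H + 1 ≤ s ∧ 2 * H ≤ s + 5 ∧ s + 3 < 2 * H ∧ nuN H s = -1) ∨
    (4 ≤ s ∧ H + 1 ≤ s ∧ 2 * H ≤ s + 3 ∧ s + 2 < 2 * H ∧ nuN H s = 0) ∨
    (4 ≤ s ∧ H + 1 ≤ s ∧ 2 * H ≤ s + 2 ∧ nuN H s = 1) := by
  unfold nuN
  by_cases h1 : s < 1
  · exact Or.inl ⟨h1, if_pos h1⟩
  rw [if_neg h1]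
  refine Or.inr ?_
  by_cases h2 : s < 3
  · exact Or.inl ⟨not_lt.1 h1, h2, if_pos h2⟩
  rw [if_neg h2]
  refine Or.inr ?_
  by_cases h3 : s < 4
  · exact Or.inl ⟨not_lt.1 h2, h3, if_pos h3⟩
  rw [if_neg h3]
  refine Or.inr ?_
  by_cases h4 : s < H
  · exact Or.inl ⟨not_lt.1 h3, h4, if_pos h4⟩
  rw [if_neg h4]
  refine Or.inr ?_
  by_cases h5 : s < H + 1
  · exact Or.inl ⟨not_lt.1 h3, not_lt.1 h4, h5, if_pos h5⟩
  rw [if_neg h5]
  refine Or.inr ?_
  by_cases h6 : s + 7 < 2 * H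
  · exact Or.inl ⟨not_lt.1 h3, not_lt.1 h5, h6, if_pos h6⟩
  rw [if_neg h6]
  refine Or.inr ?_
  by_cases h7 : s + 5 < 2 * H
  · exact Or.inl ⟨not_lt.1 h3, not_lt.1 h5, not_lt.1 h6, h7, if_pos h7⟩
  rw [if_neg h7]
  refine Or.inr ?_
  by_cases h8 : s + 3 < 2 * H
  · exact Or.inl ⟨not_lt.1 h3, not_lt.1 h5, not_lt.1 h7, h8, if_pos h8⟩
  rw [if_neg h8]
  refine Or.inr ?_
  by_cases h9 : s + 2 < 2 * H
  · exact Or.inl ⟨not_lt.1 h3, not_lt.1 h5, not_lt.1 h8, h9, if_pos h9⟩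
  rw [if_neg h9]
  exact Or.inr ⟨not_lt.1 h3, not_lt.1 h5, not_lt.1 h9, rfl⟩

theorem chainC {H : ℕ} (h8 : 8 ≤ H) (h2 : H % 2 = 0) : Chain H (nuC H) := by
  refine ⟨?_, rfl, rfl, ?_, ?_, ?_, ?_, ?_⟩
  · intro s hs
    have := nuC_val H s
    omega
  · have := nuC_val H (2 * H - 1)
    omega
  · intro s hs hs2
    rcases nuC_val H s with h | h | h | h | h | h | h | h <;>
      have := nuC_val H (s + 1) <;> omega
  · intro s hs hs2
    rcases nuC_val H s with h | h | h | h | h | h | h | h <;>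
      have := nuC_val H (s + 1) <;> omega
  · intro s hs hs2
    rcases nuC_val H s with h | h | h | h | h | h | h | h <;>
      have := nuC_val H (2 * H - 1 - s) <;> omega
  · intro s hs hs2 hs3
    rcases nuC_val H s with h | h | h | h | h | h | h | h <;>
      have := nuC_val H (2 * H + 1 - s) <;> omega

theorem nuC_sym {H : ℕ} (h8 : 8 ≤ H) : ∀ s, 0 < s → s < 2 * H → nuC H (2 * H - s) = -nuC H s := by
  intro s hs0 hs
  rcases nuC_val H s with h | h | h | h | h | h | h | h <;>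
    have := nuC_val H (2 * H - s) <;> omega

theorem chainN {H : ℕ} (h16 : 16 ≤ H) (h2 : H % 2 = 0) : Chain H (nuN H) := by
  refine ⟨?_, rfl, rfl, ?_, ?_, ?_, ?_, ?_⟩
  · intro s hs
    have := nuN_val H s
    omega
  · have := nuN_val H (2 * H - 1)
    omega
  · intro s hs hs2
    rcases nuN_val H s with h | h | h | h | h | h | h | h | h | h <;>
      have := nuN_val H (s + 1) <;> omega
  · intro s hs hs2
    rcases nuN_val H s with h | h | h | h | h | h | h | h | h | h <;>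
      have := nuN_val H (s + 1) <;> omega
  · intro s hs hs2
    rcases nuN_val H s with h | h | h | h | h | h | h | h | h | h <;>
      have := nuN_val H (2 * H - 1 - s) <;> omega
  · intro s hs hs2 hs3
    rcases nuN_val H s with h | h | h | h | h | h | h | h | h | h <;>
      have := nuN_val H (2 * H + 1 - s) <;> omega

theorem ncN {H : ℕ} (h16 : 16 ≤ H) :
    LevNC H (fP H (muS (nuN H) H)) (muS (nuN H) H) := by
  have h1 : muS (nuN H) H 6 = 1 := by
    unfold muS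
    rw [if_pos (by norm_num)]
    have := nuN_val H 6
    omega
  have h2 : muS (nuN H) H (2 * H - 6) = 0 := by
    unfold muS
    rw [if_pos (by omega)]
    have := nuN_val H (2 * H - 6)
    omega
  refine nc_fam (v := 6) (by norm_num) (by omega) ?_ ?_
  · rw [h1, h2]
    norm_num
  · rw [h1, h2]
    norm_num

end Pool.Agent.DNeo
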